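import Mathlib
import Pool.Agent.MM7.Defs

/-!
# MM7T.EserEq: `Eser` as a product
-/

open Real

namespace MM7T

noncomputable section

private lemma summ_prod {q : ℝ} (h0 : 0 < q) (h1 : q < 1) :
    Summable (fun p : ℕ × ℕ => q ^ p.1 * q ^ p.2) :=
  (summable_geometric_of_lt_one h0.le h1).mul_of_nonneg
    (summable_geometric_of_lt_one h0.le h1)
    (fun _ => by positivity) (fun _ => by positivity)

private lemma summ_F {q : ℝ} (h0 : 0 < q) (h1 : q < 1) :
    Summable (fun p : ℕ × ℕ => (q ^ (2 * p.1 + 2)) ^ (p.2 + 1) / (2 * (p.1 : ℝ) + 2)) := by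
  refine Summable.of_nonneg_of_le (fun p => by positivity) (fun p => ?_) (summ_prod h0 h1)
  rw [← pow_mul, ← pow_add]
  calc q ^ ((2 * p.1 + 2) * (p.2 + 1)) / (2 * (p.1 : ℝ) + 2)
      ≤ q ^ ((2 * p.1 + 2) * (p.2 + 1)) / 1 := by
        apply div_le_div_of_nonneg_left (by positivity) (by norm_num)
        have : (0:ℝ) ≤ p.1 := Nat.cast_nonneg _
        linarith
    _ = q ^ ((2 * p.1 + 2) * (p.2 + 1)) := by rw [div_one]
    _ ≤ q ^ (p.1 + p.2) := pow_le_pow_of_le_one h0.le h1.le (by nlinarith)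

private lemma summ_G {q : ℝ} (h0 : 0 < q) (h1 : q < 1) :
    Summable (fun p : ℕ × ℕ =>
      (-1 : ℝ) ^ p.2 * (q ^ (2 * p.1 + 1)) ^ (p.2 + 1) / (2 * (p.1 : ℝ) + 1)) := by
  refine Summable.of_norm_bounded (summ_prod h0 h1) (fun p => ?_)
  rw [norm_div, norm_mul, norm_pow, norm_neg, norm_one, one_pow, one_mul,
    Real.norm_of_nonneg (by positivity), Real.norm_of_nonneg (by positivity),
    ← pow_mul, ← pow_add]
  calc q ^ ((2 * p.1 + 1) * (p.2 + 1)) / (2 * (p.1 : ℝ) + 1)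
      ≤ q ^ ((2 * p.1 + 1) * (p.2 + 1)) / 1 := by
        apply div_le_div_of_nonneg_left (by positivity) (by norm_num)
        have : (0:ℝ) ≤ p.1 := Nat.cast_nonneg _
        linarith
    _ = q ^ ((2 * p.1 + 1) * (p.2 + 1)) := by rw [div_one]
    _ ≤ q ^ (p.1 + p.2) := pow_le_pow_of_le_one h0.le h1.le (by nlinarith)

private lemma row_F {r : ℝ} (h0 : 0 < r) (h1 : r < 1) (c : ℝ) :
    HasSum (fun j : ℕ => r ^ (j + 1) / c) (1 / c / (r⁻¹ - 1)) := by
  have h := (hasSum_geometric_of_lt_one h0.le h1).mul_left (r / c)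
  have e : r / c * (1 - r)⁻¹ = 1 / c / (r⁻¹ - 1) := by
    have : r⁻¹ - 1 = (1 - r) / r := by field_simp
    rw [this]
    have h2 : (1 - r) ≠ 0 := by linarith
    have h3 : r ≠ 0 := h0.ne'
    rw [div_div_eq_mul_div]
    by_cases hc : c = 0
    · simp [hc]
    · field_simp
  rw [e] at h
  refine h.congr_fun ?_ |> fun h => h
  intro j
  rw [pow_succ]; ring

private lemma row_G {r : ℝ} (h0 : 0 < r) (h1 : r < 1) (c : ℝ) :
    HasSum (fun j : ℕ => (-1 : ℝ) ^ j * r ^ (j + 1) / c) (1 / c / (r⁻¹ + 1)) := by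
  have h := (hasSum_geometric_of_norm_lt_one (ξ := -r) (by
    rw [norm_neg, Real.norm_of_nonneg h0.le]; exact h1)).mul_left (r / c)
  have e : r / c * (1 - -r)⁻¹ = 1 / c / (r⁻¹ + 1) := by
    have h3 : r ≠ 0 := h0.ne'
    have : r⁻¹ + 1 = (1 + r) / r := by field_simp
    rw [this, sub_neg_eq_add]
    have h2 : (1 + r) ≠ 0 := by linarith
    rw [div_div_eq_mul_div]
    by_cases hc : c = 0
    · simp [hc]
    · field_simp
  rw [e] at h
  refine h.congr_fun ?_ |> fun h => h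
  intro j
  rw [neg_pow, pow_succ]; ring

private lemma col_F {s : ℝ} (h0 : 0 < s) (h1 : s < 1) :
    HasSum (fun k : ℕ => s ^ (2 * k + 2) / (2 * (k : ℝ) + 2))
      (-(1 / 2) * Real.log (1 - s ^ 2)) := by
  have hs : |s ^ 2| < 1 := by
    rw [abs_of_nonneg (by positivity)]; nlinarith
  have h := (Real.hasSum_pow_div_log_of_abs_lt_one hs).mul_left (1 / 2)
  rw [show -(1 / 2) * Real.log (1 - s ^ 2) = 1 / 2 * -Real.log (1 - s ^ 2) by ring]
  refine h.congr_fun ?_ |> fun h => h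
  intro k
  rw [← pow_mul, show 2 * (k + 1) = 2 * k + 2 by ring]
  have : (0:ℝ) ≤ k := Nat.cast_nonneg _
  field_simp

private lemma col_G {s : ℝ} (h0 : 0 < s) (h1 : s < 1) :
    HasSum (fun k : ℕ => s ^ (2 * k + 1) / (2 * (k : ℝ) + 1))
      (1 / 2 * (Real.log (1 + s) - Real.log (1 - s))) := by
  have h := (Real.hasSum_log_sub_log_of_abs_lt_one (by rwa [abs_of_nonneg h0.le])).mul_left (1 / 2)
  refine h.congr_fun ?_ |> fun h => h
  intro k
  have : (0:ℝ) ≤ k := Nat.cast_nonneg _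
  field_simp

private lemma summ_logadd {q : ℝ} (h0 : 0 < q) (h1 : q < 1) {e : ℕ → ℕ} (he : ∀ n, n ≤ e n) :
    Summable (fun n : ℕ => Real.log (1 + q ^ (e n))) := by
  refine Summable.of_nonneg_of_le (fun n => ?_) (fun n => ?_) (summable_geometric_of_lt_one h0.le h1)
  · apply Real.log_nonneg
    have : 0 < q ^ (e n) := by positivity
    linarith
  · have h2 : 0 < q ^ (e n) := by positivity
    have h3 := Real.log_le_sub_one_of_pos (show 0 < 1 + q ^ (e n) by linarith)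
    have h4 : q ^ (e n) ≤ q ^ n := pow_le_pow_of_le_one h0.le h1.le (he n)
    linarith

private lemma summ_logsub {q : ℝ} (h0 : 0 < q) (h1 : q < 1) {e : ℕ → ℕ}
    (he : ∀ n, n + 1 ≤ e n) :
    Summable (fun n : ℕ => Real.log (1 - q ^ (e n))) := by
  have hq : 0 < 1 - q := by linarith
  refine Summable.of_norm_bounded
    ((summable_geometric_of_lt_one h0.le h1).mul_left (1 / (1 - q))) (fun n => ?_)
  have h2 : 0 < q ^ (e n) := by positivity
  have h5 : q ^ (e n) ≤ q ^ (n + 1) := pow_le_pow_of_le_one h0.le h1.le (he n)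
  have h6 : q ^ (n + 1) ≤ q := by
    calc q ^ (n + 1) ≤ q ^ 1 := pow_le_pow_of_le_one h0.le h1.le (by omega)
      _ = q := pow_one q
  have h7 : q ^ (n + 1) ≤ q ^ n := pow_le_pow_of_le_one h0.le h1.le (by omega)
  have h8 : 0 < 1 - q ^ (e n) := by linarith
  rw [Real.norm_of_nonpos (Real.log_nonpos h8.le (by linarith)), ← Real.log_inv]
  have h9 := Real.log_le_sub_one_of_pos (inv_pos.mpr h8)
  have h10 : (1 - q ^ (e n))⁻¹ - 1 = q ^ (e n) / (1 - q ^ (e n)) := by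
    field_simp
    ring
  rw [h10] at h9
  calc Real.log (1 - q ^ (e n))⁻¹ ≤ q ^ (e n) / (1 - q ^ (e n)) := h9
    _ ≤ q ^ n / (1 - q) := by
        apply div_le_div₀ (by positivity) (by linarith) hq (by linarith)
    _ = 1 / (1 - q) * q ^ n := by ring

/-- Euler's identity in logarithmic form. -/
private lemma euler {q : ℝ} (h0 : 0 < q) (h1 : q < 1) :
    ∑' n : ℕ, Real.log (1 - q ^ (2 * n + 1)) = -∑' n : ℕ, Real.log (1 + q ^ (n + 1)) := by
  have sS : Summable (fun n : ℕ => Real.log (1 - q ^ (n + 1))) :=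
    summ_logsub h0 h1 (e := fun n => n + 1) (fun n => le_rfl)
  have sO : Summable (fun n : ℕ => Real.log (1 - q ^ (2 * n + 1))) :=
    summ_logsub h0 h1 (e := fun n => 2 * n + 1) (fun n => by omega)
  have sE : Summable (fun n : ℕ => Real.log (1 - q ^ (2 * n + 1 + 1))) :=
    summ_logsub h0 h1 (e := fun n => 2 * n + 1 + 1) (fun n => by omega)
  have sA : Summable (fun n : ℕ => Real.log (1 + q ^ (n + 1))) :=
    summ_logadd h0 h1 (e := fun n => n + 1) (fun n => by omega)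
  have hS := tsum_even_add_odd (f := fun n : ℕ => Real.log (1 - q ^ (n + 1))) sO sE
  have hE : ∑' n : ℕ, Real.log (1 - q ^ (2 * n + 1 + 1)) =
      ∑' n : ℕ, Real.log (1 - q ^ (n + 1)) + ∑' n : ℕ, Real.log (1 + q ^ (n + 1)) := by
    rw [← sS.tsum_add sA]
    congr 1
    ext n
    have h2 : q ^ (n + 1) < 1 := pow_lt_one₀ h0.le h1 (by omega)
    have h3 : 0 < q ^ (n + 1) := by positivity
    rw [← Real.log_mul (by linarith) (by linarith)]
    congr 1
    rw [show 2 * n + 1 + 1 = (n + 1) * 2 by ring, pow_mul]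
    ring
  linarith

private lemma main_id {q : ℝ} (h0 : 0 < q) (h1 : q < 1) :
    (∑' k : ℕ, 1 / (2 * (k:ℝ) + 2) / ((q ^ (2 * k + 2))⁻¹ - 1))
    + (∑' k : ℕ, 1 / (2 * (k:ℝ) + 1) / ((q ^ (2 * k + 1))⁻¹ + 1)) =
    ∑' n : ℕ, Real.log (1 + q ^ (2 * n + 1)) := by
  have hq : ∀ n : ℕ, q ^ (n + 1) < 1 := fun n => pow_lt_one₀ h0.le h1 (by omega)
  have hq0 : ∀ n : ℕ, 0 < q ^ n := fun n => by positivity
  -- rows
  have rF : (∑' k : ℕ, 1 / (2 * (k:ℝ) + 2) / ((q ^ (2 * k + 2))⁻¹ - 1)) =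
      ∑' k : ℕ, ∑' j : ℕ, (q ^ (2 * k + 2)) ^ (j + 1) / (2 * (k : ℝ) + 2) := by
    congr 1
    ext k
    exact (row_F (hq0 _) (hq _) (2 * (k:ℝ) + 2)).tsum_eq.symm
  have rG : (∑' k : ℕ, 1 / (2 * (k:ℝ) + 1) / ((q ^ (2 * k + 1))⁻¹ + 1)) =
      ∑' k : ℕ, ∑' j : ℕ, (-1 : ℝ) ^ j * (q ^ (2 * k + 1)) ^ (j + 1) / (2 * (k : ℝ) + 1) := by
    congr 1
    ext k
    exact (row_G (hq0 _) (hq _) (2 * (k:ℝ) + 1)).tsum_eq.symm
  have cF : ∀ j : ℕ, ∑' k : ℕ, (q ^ (2 * k + 2)) ^ (j + 1) / (2 * (k : ℝ) + 2) =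
      -(1 / 2) * Real.log (1 - (q ^ (j + 1)) ^ 2) := by
    intro j
    rw [← (col_F (hq0 (j + 1)) (hq j)).tsum_eq]
    congr 1
    ext k
    rw [← pow_mul, ← pow_mul, mul_comm (2 * k + 2)]
  have cG : ∀ j : ℕ, ∑' k : ℕ, (-1 : ℝ) ^ j * (q ^ (2 * k + 1)) ^ (j + 1) / (2 * (k : ℝ) + 1) =
      (-1 : ℝ) ^ j * (1 / 2 * (Real.log (1 + q ^ (j + 1)) - Real.log (1 - q ^ (j + 1)))) := by
    intro j
    rw [← (col_G (hq0 (j + 1)) (hq j)).tsum_eq, ← tsum_mul_left]
    congr 1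
    ext k
    rw [← pow_mul, ← pow_mul, mul_comm (2 * k + 1)]
    ring
  have sF := summ_F h0 h1
  have sG := summ_G h0 h1
  have sF' : Summable (fun j : ℕ => -(1 / 2) * Real.log (1 - (q ^ (j + 1)) ^ 2)) := by
    have h := sF.prod_symm.prod
    simp only [Prod.fst_swap, Prod.snd_swap] at h
    exact h.congr (fun j => cF j)
  have sG' : Summable (fun j : ℕ =>
      (-1 : ℝ) ^ j * (1 / 2 * (Real.log (1 + q ^ (j + 1)) - Real.log (1 - q ^ (j + 1))))) := by
    have h := sG.prod_symm.prod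
    simp only [Prod.fst_swap, Prod.snd_swap] at h
    exact h.congr (fun j => cG j)
  have eF : ∑' k : ℕ, ∑' j : ℕ, (q ^ (2 * k + 2)) ^ (j + 1) / (2 * (k : ℝ) + 2) =
      ∑' j : ℕ, -(1 / 2) * Real.log (1 - (q ^ (j + 1)) ^ 2) := by
    rw [← Summable.tsum_comm' (f := fun (k j : ℕ) => (q ^ (2 * k + 2)) ^ (j + 1) / (2 * (k : ℝ) + 2))
      (by exact sF) (by exact fun k => sF.prod_factor k)
      (by exact fun j => sF.prod_symm.prod_factor j)]
    exact tsum_congr cF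
  have eG : ∑' k : ℕ, ∑' j : ℕ, (-1 : ℝ) ^ j * (q ^ (2 * k + 1)) ^ (j + 1) / (2 * (k : ℝ) + 1) =
      ∑' j : ℕ, (-1 : ℝ) ^ j *
        (1 / 2 * (Real.log (1 + q ^ (j + 1)) - Real.log (1 - q ^ (j + 1)))) := by
    rw [← Summable.tsum_comm' (f := fun (k j : ℕ) =>
        (-1 : ℝ) ^ j * (q ^ (2 * k + 1)) ^ (j + 1) / (2 * (k : ℝ) + 1))
      (by exact sG) (by exact fun k => sG.prod_factor k)
      (by exact fun j => sG.prod_symm.prod_factor j)]
    exact tsum_congr cG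
  rw [rF, rG, eF, eG, ← sF'.tsum_add sG']
  -- split into even and odd j
  have hterm : ∀ j : ℕ, -(1 / 2) * Real.log (1 - (q ^ (j + 1)) ^ 2) +
      (-1 : ℝ) ^ j * (1 / 2 * (Real.log (1 + q ^ (j + 1)) - Real.log (1 - q ^ (j + 1)))) =
      if Even j then -Real.log (1 - q ^ (j + 1)) else -Real.log (1 + q ^ (j + 1)) := by
    intro j
    have h2 := hq j
    have h3 := hq0 (j + 1)
    have h4 : Real.log (1 - (q ^ (j + 1)) ^ 2) =
        Real.log (1 - q ^ (j + 1)) + Real.log (1 + q ^ (j + 1)) := by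
      rw [← Real.log_mul (by linarith) (by linarith)]
      congr 1
      ring
    rw [h4]
    split_ifs with hj
    · rw [hj.neg_one_pow]; ring
    · rw [(Nat.not_even_iff_odd.mp hj).neg_one_pow]; ring
  have s1 : Summable (fun n : ℕ => -Real.log (1 - q ^ (2 * n + 1))) :=
    (summ_logsub h0 h1 (e := fun n => 2 * n + 1) (fun n => by omega)).neg
  have s2 : Summable (fun n : ℕ => -Real.log (1 + q ^ (2 * n + 1 + 1))) :=
    (summ_logadd h0 h1 (e := fun n => 2 * n + 1 + 1) (fun n => by omega)).neg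
  rw [tsum_congr hterm]
  have e1 : ∀ n : ℕ, (if Even (2 * n) then -Real.log (1 - q ^ (2 * n + 1))
      else -Real.log (1 + q ^ (2 * n + 1))) = -Real.log (1 - q ^ (2 * n + 1)) := by
    intro n
    rw [if_pos (even_two_mul n)]
  have e2 : ∀ n : ℕ, (if Even (2 * n + 1) then -Real.log (1 - q ^ (2 * n + 1 + 1))
      else -Real.log (1 + q ^ (2 * n + 1 + 1))) = -Real.log (1 + q ^ (2 * n + 1 + 1)) := by
    intro n
    rw [if_neg (by simp)]
  have hsplit := tsum_even_add_odd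
    (f := fun j : ℕ => if Even j then -Real.log (1 - q ^ (j + 1)) else -Real.log (1 + q ^ (j + 1)))
    (s1.congr (fun n => (e1 n).symm)) (s2.congr (fun n => (e2 n).symm))
  rw [← hsplit, tsum_congr e1, tsum_congr e2, tsum_neg, euler h0 h1, neg_neg, tsum_neg]
  -- split the sum of log (1 + q^j)
  have s3 : Summable (fun n : ℕ => Real.log (1 + q ^ (2 * n + 1))) :=
    summ_logadd h0 h1 (e := fun n => 2 * n + 1) (fun n => by omega)
  have s4 : Summable (fun n : ℕ => Real.log (1 + q ^ (2 * n + 1 + 1))) :=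
    summ_logadd h0 h1 (e := fun n => 2 * n + 1 + 1) (fun n => by omega)
  have hA := tsum_even_add_odd (f := fun n : ℕ => Real.log (1 + q ^ (n + 1))) s3 s4
  rw [← hA]
  ring

theorem eser_prod {y : ℝ} (hy : 0 < y) : MM7.Eser y =
    π ^ 2 * y / 12 - π * Real.log 2
      + 2 * π * ∑' n : ℕ, Real.log (1 + Real.exp (-(π * (2 * (n:ℝ) + 1) * y))) := by
  have hπ := Real.pi_pos
  set q : ℝ := Real.exp (-(π * y)) with hq
  have h0 : 0 < q := Real.exp_pos _
  have h1 : q < 1 := by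
    rw [hq, Real.exp_lt_one_iff]
    have := mul_pos hπ hy
    linarith
  have hpow : ∀ n : ℕ, q ^ n = Real.exp (-(π * (n:ℝ) * y)) := by
    intro n
    rw [hq, ← Real.exp_nat_mul]
    congr 1
    ring
  have hm := main_id h0 h1
  have e1 : ∀ k : ℕ, 1 / (2 * (k:ℝ) + 2) / ((q ^ (2 * k + 2))⁻¹ - 1) =
      1 / (2 * (k:ℝ) + 2) / (Real.exp (π * (2 * (k:ℝ) + 2) * y) - 1) := by
    intro k
    rw [hpow, ← Real.exp_neg, neg_neg]
    push_cast
    rfl
  have e2 : ∀ k : ℕ, 1 / (2 * (k:ℝ) + 1) / ((q ^ (2 * k + 1))⁻¹ + 1) =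
      1 / (2 * (k:ℝ) + 1) / (Real.exp (π * (2 * (k:ℝ) + 1) * y) + 1) := by
    intro k
    rw [hpow, ← Real.exp_neg, neg_neg]
    push_cast
    rfl
  have e3 : ∀ n : ℕ, Real.log (1 + q ^ (2 * n + 1)) =
      Real.log (1 + Real.exp (-(π * (2 * (n:ℝ) + 1) * y))) := by
    intro n
    rw [hpow]
    push_cast
    rfl
  rw [tsum_congr e1, tsum_congr e2, tsum_congr e3] at hm
  unfold MM7.Eser
  rw [← hm]
  ring

end

end MM7T
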