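import Pool.Agent.MM7T.GserRow

/-!
# MM7T: `Gser y = i (π⁴/96) Q4 y`
-/

open Real MM7

namespace MM7T

noncomputable section

theorem Gser_summable {y : ℝ} (hy : 0 < y) :
    Summable (fun p : ℤ × ℤ => ((chi p.1 * chi p.2 : ℝ) : ℂ) / lam y p ^ 4) := by
  have hs : Summable (fun n : ℤ => 1 / (n:ℝ) ^ 2) := by
    have := (Real.summable_one_div_int_pow (p := 2)).mpr (by norm_num)
    exact this
  have hp := (Summable.mul_of_nonneg hs hs (fun n => by positivity) (fun n => by positivity)).mul_left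
    (1 / (4 * y ^ 2))
  refine Summable.of_norm_bounded hp (fun p => ?_)
  obtain ⟨m, n⟩ := p
  have h0 : (0:ℝ) ≤ 1 / (4 * y ^ 2) * (1 / (m:ℝ) ^ 2 * (1 / (n:ℝ) ^ 2)) := by positivity
  by_cases hm : m = 0
  · subst hm
    have : chi 0 = 0 := by rw [chi_eq]; simp
    simp [this]
  by_cases hn : n = 0
  · subst hn
    have : chi 0 = 0 := by rw [chi_eq]; simp
    simp [this]
  have hm' : (m:ℝ) ≠ 0 := by exact_mod_cast hm
  have hn' : (n:ℝ) ≠ 0 := by exact_mod_cast hn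
  have hm2 : 0 < (m:ℝ) ^ 2 := by positivity
  have hn2 : 0 < (n:ℝ) ^ 2 := by positivity
  rw [norm_div, norm_pow, Complex.norm_real, norm_mul]
  have hl : ‖lam y (m, n)‖ ^ 2 = (m:ℝ) ^ 2 * y ^ 2 + (n:ℝ) ^ 2 := by
    rw [Complex.sq_norm]
    unfold lam
    rw [Complex.normSq_apply]
    simp
    ring
  have hl4 : ‖lam y (m, n)‖ ^ 4 = ((m:ℝ) ^ 2 * y ^ 2 + (n:ℝ) ^ 2) ^ 2 := by
    rw [← hl]; ring
  rw [hl4]
  have hb : 4 * y ^ 2 * ((m:ℝ) ^ 2 * (n:ℝ) ^ 2) ≤ ((m:ℝ) ^ 2 * y ^ 2 + (n:ℝ) ^ 2) ^ 2 := by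
    nlinarith [sq_nonneg ((m:ℝ) ^ 2 * y ^ 2 - (n:ℝ) ^ 2)]
  have hpos : 0 < 4 * y ^ 2 * ((m:ℝ) ^ 2 * (n:ℝ) ^ 2) := by positivity
  have hc : ‖chi m‖ * ‖chi n‖ ≤ 1 := by
    have h1 := chi_abs_le m
    have h2 := chi_abs_le n
    rw [Real.norm_eq_abs, Real.norm_eq_abs]
    calc |chi m| * |chi n| ≤ 1 * 1 := mul_le_mul h1 h2 (abs_nonneg _) (by norm_num)
      _ = 1 := by norm_num
  calc ‖chi m‖ * ‖chi n‖ / ((m:ℝ) ^ 2 * y ^ 2 + (n:ℝ) ^ 2) ^ 2
      ≤ 1 / (4 * y ^ 2 * ((m:ℝ) ^ 2 * (n:ℝ) ^ 2)) := by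
        apply div_le_div₀ (by norm_num) hc hpos hb
    _ = _ := by field_simp

/-- the row sum -/
def Rw (y : ℝ) (m : ℤ) : ℂ := ∑' n : ℤ, (chi n : ℂ) * (1 / ((m:ℂ) * y * Complex.I + n) ^ 4)

theorem Rw_neg (y : ℝ) (m : ℤ) : Rw y (-m) = -Rw y m := by
  unfold Rw
  rw [← tsum_neg, ← (Equiv.neg ℤ).tsum_eq]
  apply tsum_congr
  intro n
  simp only [Equiv.neg_apply, chi_neg]
  have : (((-m : ℤ):ℂ) * y * Complex.I + ((-n : ℤ):ℂ)) = -((m:ℂ) * y * Complex.I + n) := by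
    push_cast; ring
  rw [this]
  have h4 : (-((m:ℂ) * y * Complex.I + n)) ^ 4 = ((m:ℂ) * y * Complex.I + n) ^ 4 := by ring
  rw [h4]
  push_cast
  ring

theorem Rw_odd {y : ℝ} (hy : 0 < y) (i : ℕ) :
    Rw y (2 * i + 1) = (π:ℂ) ^ 4 / 96 * (2 * Complex.I) * ∑' j : ℕ, (-1:ℂ) ^ j * (2 * (j:ℂ) + 1) ^ 3 *
        Complex.exp (-(π * (2 * (i:ℂ) + 1) * (2 * (j:ℂ) + 1) * y / 2)) := by
  have ht : 0 < (2 * (i:ℝ) + 1) * y := by positivity
  have h := (row_eq ht).tsum_eq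
  unfold Rw
  have e1 : (fun n : ℤ => (chi n : ℂ) * (1 / ((((2 * i + 1 : ℤ)):ℂ) * y * Complex.I + n) ^ 4))
      = fun n : ℤ => (chi n : ℂ) * (1 / ((((2 * (i:ℝ) + 1) * y : ℝ):ℂ) * Complex.I + n) ^ 4) := by
    funext n
    push_cast
    rfl
  rw [e1, h]
  congr 1
  apply tsum_congr
  intro j
  congr 2
  push_cast
  ring

theorem chi_odd (i : ℕ) : chi (2 * i + 1) = (-1) ^ i := by
  rw [chi_eq]
  rcases Nat.even_or_odd i with ⟨k, hk⟩ | ⟨k, hk⟩
  · rw [if_neg (by omega), if_pos (by omega), Even.neg_one_pow ⟨k, hk⟩]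
  · rw [if_neg (by omega), if_neg (by omega), Odd.neg_one_pow ⟨k, hk⟩]

theorem gser_Q4 {y : ℝ} (hy : 0 < y) :
    Gser y = Complex.I * (π ^ 4 / 96) * (Q4 y : ℂ) := by
  have hs := Gser_summable hy
  unfold Gser
  rw [hs.tsum_prod]
  have e1 : ∀ m : ℤ, ∑' n : ℤ, ((chi (m, n).1 * chi (m, n).2 : ℝ) : ℂ) / lam y (m, n) ^ 4
      = (chi m : ℂ) * Rw y m := by
    intro m
    unfold Rw lam
    rw [← tsum_mul_left]
    apply tsum_congr
    intro n
    push_cast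
    ring
  rw [tsum_congr e1]
  -- split by sign
  have hsm : Summable (fun m : ℤ => (chi m : ℂ) * Rw y m) := by
    have := hs.prod
    exact this.congr e1
  have i1 : Function.Injective (fun i : ℕ => 2 * (i:ℤ) + 1) := fun a b h => by
    have h' : 2 * (a:ℤ) + 1 = 2 * (b:ℤ) + 1 := h
    omega
  have i2 : Function.Injective (fun i : ℕ => -(2 * (i:ℤ) + 1)) := fun a b h => by
    have h' : -(2 * (a:ℤ) + 1) = -(2 * (b:ℤ) + 1) := h
    omega
  set W : ℂ := ∑' i : ℕ, ((-1:ℂ) ^ i) * Rw y (2 * i + 1) with hW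
  have hs1 : Summable (fun i : ℕ => ((-1:ℂ) ^ i) * Rw y (2 * i + 1)) := by
    refine (hsm.comp_injective i1).congr (fun i => ?_)
    simp only [Function.comp]
    rw [chi_odd]
    push_cast
    rfl
  have hp : HasSum (fun m : ℤ => if 0 < m then (chi m : ℂ) * Rw y m else 0) W := by
    refine (i1.hasSum_iff ?_).mp ?_
    · intro x hx
      split_ifs with h0
      · have hx2 : x % 2 = 0 := by
          by_contra hc
          exact hx ⟨((x - 1) / 2).toNat, by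
            show 2 * ((((x - 1) / 2).toNat : ℕ) : ℤ) + 1 = x
            omega⟩
        have : chi x = 0 := by rw [chi_eq, if_pos hx2]
        rw [this]; simp
      · rfl
    · have : (fun m : ℤ => if 0 < m then (chi m : ℂ) * Rw y m else 0) ∘ (fun i : ℕ => 2 * (i:ℤ) + 1)
          = fun i : ℕ => ((-1:ℂ) ^ i) * Rw y (2 * i + 1) := by
        funext i
        simp only [Function.comp]
        rw [if_pos (by omega), chi_odd]
        push_cast
        rfl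
      rw [this]
      exact hs1.hasSum
  have hn : HasSum (fun m : ℤ => if m < 0 then (chi m : ℂ) * Rw y m else 0) W := by
    refine (i2.hasSum_iff ?_).mp ?_
    · intro x hx
      split_ifs with h0
      · have hx2 : x % 2 = 0 := by
          by_contra hc
          exact hx ⟨((-x - 1) / 2).toNat, by
            show -(2 * ((((-x - 1) / 2).toNat : ℕ) : ℤ) + 1) = x
            omega⟩
        have : chi x = 0 := by rw [chi_eq, if_pos hx2]
        rw [this]; simp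
      · rfl
    · have : (fun m : ℤ => if m < 0 then (chi m : ℂ) * Rw y m else 0) ∘ (fun i : ℕ => -(2 * (i:ℤ) + 1))
          = fun i : ℕ => ((-1:ℂ) ^ i) * Rw y (2 * i + 1) := by
        funext i
        simp only [Function.comp]
        rw [if_pos (by omega), chi_neg, Rw_neg, chi_odd]
        push_cast
        ring
      rw [this]
      exact hs1.hasSum
  have htot : HasSum (fun m : ℤ => (chi m : ℂ) * Rw y m) (W + W) := by
    refine (hp.add hn).congr_fun (fun m => ?_) |> fun h => h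
    rcases lt_trichotomy m 0 with h | h | h
    · rw [if_neg (by omega), if_pos h, zero_add]
    · subst h
      have : chi 0 = 0 := by rw [chi_eq]; simp
      simp [this]
    · rw [if_pos h, if_neg (by omega), add_zero]
  rw [htot.tsum_eq]
  -- evaluate W
  have hW2 : W = (π:ℂ) ^ 4 / 96 * (2 * Complex.I) *
      ∑' p : ℕ × ℕ, (((-1:ℝ) ^ (p.1 + p.2) * (2 * (p.2:ℝ) + 1) ^ 3
    * Real.exp (-(π * (2 * (p.1:ℝ) + 1) * (2 * (p.2:ℝ) + 1) * y / 2)) : ℝ) : ℂ) := by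
    have hsC : Summable (fun p : ℕ × ℕ => (((-1:ℝ) ^ (p.1 + p.2) * (2 * (p.2:ℝ) + 1) ^ 3
    * Real.exp (-(π * (2 * (p.1:ℝ) + 1) * (2 * (p.2:ℝ) + 1) * y / 2)) : ℝ) : ℂ)) :=
      Complex.ofRealCLM.summable (Q4_summable hy)
    rw [hsC.tsum_prod, hW, ← tsum_mul_left]
    apply tsum_congr
    intro i
    rw [Rw_odd hy i]
    have e3 : ∑' j : ℕ, ((((-1:ℝ) ^ ((i, j).1 + (i, j).2) * (2 * (((i, j).2 : ℕ):ℝ) + 1) ^ 3
        * Real.exp (-(π * (2 * (((i, j).1 : ℕ):ℝ) + 1) * (2 * (((i, j).2 : ℕ):ℝ) + 1) * y / 2)) : ℝ)) : ℂ)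
        = (-1:ℂ) ^ i * ∑' j : ℕ, (-1:ℂ) ^ j * (2 * (j:ℂ) + 1) ^ 3 *
        Complex.exp (-(π * (2 * (i:ℂ) + 1) * (2 * (j:ℂ) + 1) * y / 2)) := by
      rw [← tsum_mul_left]
      apply tsum_congr
      intro j
      push_cast
      rw [pow_add]
      ring
    rw [e3]
    ring
  rw [hW2]
  unfold Q4
  push_cast
  ring

theorem gser_im_Q4 {y : ℝ} (hy : 0 < y) : (Gser y).im = π ^ 4 / 96 * Q4 y := by
  rw [gser_Q4 hy]
  have : Complex.I * ((π:ℂ) ^ 4 / 96) * (Q4 y : ℂ) = ((π ^ 4 / 96 * Q4 y : ℝ) : ℂ) * Complex.I := by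
    push_cast; ring
  rw [this, Complex.mul_im, Complex.ofReal_re, Complex.ofReal_im, Complex.I_im, Complex.I_re]
  ring

end

end MM7T
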