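import Mathlib
import Pool.Agent.MM7.Defs

/-!
# MM7T.Theta: complex theta constants (definitions and series)
-/

open Real

namespace MM7T

noncomputable section

/-- theta constants, nome `exp(π i τ)` -/
def T3 (τ : ℂ) : ℂ := jacobiTheta₂ 0 τ
def T4 (τ : ℂ) : ℂ := jacobiTheta₂ (1 / 2) τ
def T2 (τ : ℂ) : ℂ := Complex.exp (π * Complex.I * τ / 4) * jacobiTheta₂ (τ / 2) τ

theorem neg_one_natAbs (n : ℤ) : (-1 : ℂ) ^ n.natAbs = Complex.exp (π * Complex.I * n) := by
  have h : Complex.exp (π * Complex.I * n) = (-1 : ℂ) ^ n := by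
    rw [show (π * Complex.I * n : ℂ) = (n : ℂ) * (π * Complex.I) by ring, Complex.exp_int_mul,
      Complex.exp_pi_mul_I]
  rw [h]
  rcases Int.even_or_odd n with hn | hn
  · rw [hn.neg_one_zpow, (Int.natAbs_even.mpr hn).neg_one_pow]
  · rw [hn.neg_one_zpow, (Int.natAbs_odd.mpr hn).neg_one_pow]

theorem hasSum_T3 {τ : ℂ} (h : 0 < τ.im) :
    HasSum (fun n : ℤ => Complex.exp (π * Complex.I * (n : ℂ) ^ 2 * τ)) (T3 τ) := by
  have := hasSum_jacobiTheta₂_term 0 h
  refine this.congr_fun ?_ |> fun h => h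
  intro n
  simp [jacobiTheta₂_term]

theorem hasSum_T4 {τ : ℂ} (h : 0 < τ.im) :
    HasSum (fun n : ℤ => (-1 : ℂ) ^ n.natAbs * Complex.exp (π * Complex.I * (n : ℂ) ^ 2 * τ))
      (T4 τ) := by
  have := hasSum_jacobiTheta₂_term (1 / 2) h
  rw [T4]
  refine this.congr_fun ?_ |> fun h => h
  intro n
  rw [jacobiTheta₂_term, neg_one_natAbs, ← Complex.exp_add]
  congr 1
  ring

theorem hasSum_T2 {τ : ℂ} (h : 0 < τ.im) :
    HasSum (fun n : ℤ => Complex.exp (π * Complex.I * ((n : ℂ) + 1 / 2) ^ 2 * τ)) (T2 τ) := by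
  have := (hasSum_jacobiTheta₂_term (τ / 2) h).mul_left (Complex.exp (π * Complex.I * τ / 4))
  rw [T2]
  refine this.congr_fun ?_ |> fun h => h
  intro n
  rw [jacobiTheta₂_term, ← Complex.exp_add]
  congr 1
  ring

/-- on the imaginary axis: the real theta constants of `MM7.Defs` -/
theorem T3_axis {y : ℝ} (hy : 0 < y) : T3 (y * Complex.I) = (MM7.th3 y : ℂ) := by
  rw [← (hasSum_T3 (τ := y * Complex.I) (by simpa using hy)).tsum_eq, MM7.th3,
    Complex.ofReal_tsum]
  refine tsum_congr fun n => ?_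
  rw [Complex.ofReal_exp]
  congr 1
  push_cast
  linear_combination (π * (n : ℂ) ^ 2 * y) * Complex.I_mul_I

theorem T4_axis {y : ℝ} (hy : 0 < y) : T4 (y * Complex.I) = (MM7.th4 y : ℂ) := by
  rw [← (hasSum_T4 (τ := y * Complex.I) (by simpa using hy)).tsum_eq, MM7.th4,
    Complex.ofReal_tsum]
  refine tsum_congr fun n => ?_
  push_cast
  congr 2
  linear_combination (π * (n : ℂ) ^ 2 * y) * Complex.I_mul_I

theorem T2_axis {y : ℝ} (hy : 0 < y) : T2 (y * Complex.I) = (MM7.th2 y : ℂ) := by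
  rw [← (hasSum_T2 (τ := y * Complex.I) (by simpa using hy)).tsum_eq, MM7.th2,
    Complex.ofReal_tsum]
  refine tsum_congr fun n => ?_
  push_cast
  congr 1
  linear_combination (π * ((n : ℂ) + 1 / 2) ^ 2 * y) * Complex.I_mul_I

end

end MM7T
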