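import Mathlib
import Pool.Agent.MM7T.Theta

/-!
# MM7T.Landen: Landen identities for complex theta constants (parity split of `Z × Z`)
-/

open Real

namespace MM7T

noncomputable section

/-- the parity split `Z × Z = {a ≡ b} ∪ {a ≢ b}` -/
def splitEquiv : (ℤ × ℤ) ⊕ (ℤ × ℤ) ≃ ℤ × ℤ where
  toFun := Sum.elim (fun p => (p.1 + p.2, p.1 - p.2)) (fun p => (p.1 + p.2 + 1, p.1 - p.2))
  invFun := fun p => if Even (p.1 + p.2) then
      Sum.inl ((p.1 + p.2) / 2, (p.1 - p.2) / 2)
    else Sum.inr ((p.1 + p.2 - 1) / 2, (p.1 - p.2 - 1) / 2)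
  left_inv := by
    rintro (⟨m, n⟩ | ⟨m, n⟩)
    · have h : Even ((m + n) + (m - n)) := ⟨m, by ring⟩
      simp only [Sum.elim_inl, h, if_true]
      congr 1
      ext <;> simp <;> omega
    · have h : ¬ Even ((m + n + 1) + (m - n)) := by
        rw [Int.not_even_iff_odd]; exact ⟨m, by ring⟩
      simp only [Sum.elim_inr, h, if_false]
      congr 1
      ext <;> simp <;> omega
  right_inv := by
    rintro ⟨a, b⟩
    by_cases h : Even (a + b)
    · simp only [h, if_true, Sum.elim_inl]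
      obtain ⟨k, hk⟩ := h
      ext <;> simp <;> omega
    · simp only [h, if_false, Sum.elim_inr]
      rw [Int.not_even_iff_odd] at h
      obtain ⟨k, hk⟩ := h
      ext <;> simp <;> omega

theorem hasSum_prod {f g : ℤ → ℂ} {A B : ℂ} (hf : HasSum f A) (hg : HasSum g B) :
    HasSum (fun p : ℤ × ℤ => f p.1 * g p.2) (A * B) :=
  hf.mul hg (summable_mul_of_summable_norm hf.summable.norm hg.summable.norm)

/-- product of two absolutely convergent series over `Z`, split by parity -/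
theorem hasSum_split {f g : ℤ → ℂ} {A B a b : ℂ} (hf : HasSum f A) (hg : HasSum g B)
    (ha : HasSum (fun p : ℤ × ℤ => f (p.1 + p.2) * g (p.1 - p.2)) a)
    (hb : HasSum (fun p : ℤ × ℤ => f (p.1 + p.2 + 1) * g (p.1 - p.2)) b) : A * B = a + b := by
  have h1 := hasSum_prod hf hg
  have h2 : HasSum (fun p : ℤ × ℤ => f p.1 * g p.2) (a + b) := by
    rw [← splitEquiv.hasSum_iff]
    exact HasSum.sum (f := (fun p : ℤ × ℤ => f p.1 * g p.2) ∘ splitEquiv) ha hb
  exact h1.unique h2

theorem hasSum_T4' {τ : ℂ} (h : 0 < τ.im) :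
    HasSum (fun n : ℤ => Complex.exp (π * Complex.I * n) *
      Complex.exp (π * Complex.I * (n : ℂ) ^ 2 * τ)) (T4 τ) := by
  have := hasSum_T4 h
  simpa only [neg_one_natAbs] using this

theorem exp_two_pi_int (n : ℤ) : Complex.exp (2 * π * Complex.I * n) = 1 := by
  rw [show (2 * π * Complex.I * n : ℂ) = n * (2 * π * Complex.I) by ring]
  exact Complex.exp_int_mul_two_pi_mul_I n

/-- the alternating half-integral theta series vanishes -/
theorem hasSum_T1 {τ : ℂ} (h : 0 < τ.im) :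
    HasSum (fun n : ℤ => Complex.exp (π * Complex.I * n) *
      Complex.exp (π * Complex.I * ((n : ℂ) + 1 / 2) ^ 2 * τ)) 0 := by
  have hs : Summable (fun n : ℤ => Complex.exp (π * Complex.I * n) *
      Complex.exp (π * Complex.I * ((n : ℂ) + 1 / 2) ^ 2 * τ)) := by
    refine Summable.of_norm ?_
    have := (hasSum_T2 h).summable.norm
    refine this.congr fun n => ?_
    rw [norm_mul]
    have : ‖Complex.exp (π * Complex.I * n)‖ = 1 := by
      rw [← neg_one_natAbs, norm_pow, norm_neg, norm_one, one_pow]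
    rw [this, one_mul]
  have key := (Equiv.subLeft (-1 : ℤ)).tsum_eq (fun n : ℤ => Complex.exp (π * Complex.I * n) *
      Complex.exp (π * Complex.I * ((n : ℂ) + 1 / 2) ^ 2 * τ))
  have h2 : (∑' n : ℤ, Complex.exp (π * Complex.I * ((Equiv.subLeft (-1 : ℤ)) n : ℤ)) *
      Complex.exp (π * Complex.I * ((((Equiv.subLeft (-1 : ℤ)) n : ℤ) : ℂ) + 1 / 2) ^ 2 * τ)) =
      - ∑' n : ℤ, Complex.exp (π * Complex.I * n) *
      Complex.exp (π * Complex.I * ((n : ℂ) + 1 / 2) ^ 2 * τ) := by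
    rw [← tsum_neg]
    refine tsum_congr fun n => ?_
    have e1 : Complex.exp (π * Complex.I * (((Equiv.subLeft (-1 : ℤ)) n : ℤ) : ℂ)) =
        - Complex.exp (π * Complex.I * n) := by
      have : (π * Complex.I * (((Equiv.subLeft (-1 : ℤ)) n : ℤ) : ℂ) : ℂ) =
          π * Complex.I * n + 2 * π * Complex.I * ((-n - 1 : ℤ) : ℂ) + π * Complex.I := by
        simp only [Equiv.subLeft_apply]; push_cast; ring
      rw [this, Complex.exp_add, Complex.exp_add, exp_two_pi_int, Complex.exp_pi_mul_I]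
      ring
    rw [e1, neg_mul]
    congr 3
    simp only [Equiv.subLeft_apply]; push_cast; ring
  rw [h2] at key
  have h0 : (∑' n : ℤ, Complex.exp (π * Complex.I * n) *
      Complex.exp (π * Complex.I * ((n : ℂ) + 1 / 2) ^ 2 * τ)) = 0 := by
    linear_combination (-1 / 2 : ℂ) * key
  rw [← h0]
  exact hs.hasSum

theorem im_two {τ : ℂ} (h : 0 < τ.im) : 0 < (2 * τ).im := by
  simp [Complex.mul_im]; linarith

theorem T3_sq {τ : ℂ} (h : 0 < τ.im) : T3 τ * T3 τ = T3 (2 * τ) * T3 (2 * τ) +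
    T2 (2 * τ) * T2 (2 * τ) := by
  refine hasSum_split (hasSum_T3 h) (hasSum_T3 h) ?_ ?_
  · refine (hasSum_prod (hasSum_T3 (im_two h)) (hasSum_T3 (im_two h))).congr_fun ?_ |> fun h => h
    intro p
    rw [← Complex.exp_add, ← Complex.exp_add]; congr 1; push_cast; ring
  · refine (hasSum_prod (hasSum_T2 (im_two h)) (hasSum_T2 (im_two h))).congr_fun ?_ |> fun h => h
    intro p
    rw [← Complex.exp_add, ← Complex.exp_add]; congr 1; push_cast; ring

theorem T4_sq {τ : ℂ} (h : 0 < τ.im) : T4 τ * T4 τ = T3 (2 * τ) * T3 (2 * τ) +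
    -(T2 (2 * τ) * T2 (2 * τ)) := by
  refine hasSum_split (hasSum_T4' h) (hasSum_T4' h) ?_ ?_
  · refine (hasSum_prod (hasSum_T3 (im_two h)) (hasSum_T3 (im_two h))).congr_fun ?_ |> fun h => h
    intro p
    calc _ = (Complex.exp (π * Complex.I * (p.1 : ℂ) ^ 2 * (2 * τ)) *
          Complex.exp (π * Complex.I * (p.2 : ℂ) ^ 2 * (2 * τ))) *
          Complex.exp (2 * π * Complex.I * (p.1 : ℤ)) := by
          simp only [← Complex.exp_add]; congr 1; push_cast; ring
      _ = _ := by rw [exp_two_pi_int, mul_one]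
  · refine (hasSum_prod (hasSum_T2 (im_two h)) (hasSum_T2 (im_two h))).neg.congr_fun ?_ |>
      fun h => h
    intro p
    have : (-1 : ℂ) = Complex.exp (2 * π * Complex.I * p.1 + π * Complex.I) := by
      rw [Complex.exp_add, exp_two_pi_int, Complex.exp_pi_mul_I]; ring
    rw [neg_eq_neg_one_mul, this]
    simp only [← Complex.exp_add]; congr 1; push_cast; ring

theorem landen_add {τ : ℂ} (h : 0 < τ.im) : T3 τ ^ 2 + T4 τ ^ 2 = 2 * T3 (2 * τ) ^ 2 := by
  linear_combination T3_sq h + T4_sq h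

theorem landen_sub {τ : ℂ} (h : 0 < τ.im) : T3 τ ^ 2 - T4 τ ^ 2 = 2 * T2 (2 * τ) ^ 2 := by
  linear_combination T3_sq h - T4_sq h

theorem landen_mul {τ : ℂ} (h : 0 < τ.im) : T3 τ * T4 τ = T4 (2 * τ) ^ 2 := by
  have key : T3 τ * T4 τ = T4 (2 * τ) * T4 (2 * τ) + 0 * 0 := by
    refine hasSum_split (hasSum_T3 h) (hasSum_T4' h) ?_ ?_
    · refine (hasSum_prod (hasSum_T4' (im_two h)) (hasSum_T4' (im_two h))).congr_fun ?_ |>
        fun h => h
      intro p
      calc _ = (Complex.exp (π * Complex.I * p.1) *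
          Complex.exp (π * Complex.I * (p.1 : ℂ) ^ 2 * (2 * τ)) *
          (Complex.exp (π * Complex.I * p.2) *
          Complex.exp (π * Complex.I * (p.2 : ℂ) ^ 2 * (2 * τ)))) *
          Complex.exp (2 * π * Complex.I * ((-p.2 : ℤ) : ℂ)) := by
            simp only [← Complex.exp_add]; congr 1; push_cast; ring
        _ = _ := by rw [exp_two_pi_int, mul_one]
    · refine (hasSum_prod (hasSum_T1 (im_two h)) (hasSum_T1 (im_two h))).congr_fun ?_ |>
        fun h => h
      intro p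
      calc _ = (Complex.exp (π * Complex.I * p.1) *
          Complex.exp (π * Complex.I * ((p.1 : ℂ) + 1 / 2) ^ 2 * (2 * τ)) *
          (Complex.exp (π * Complex.I * p.2) *
          Complex.exp (π * Complex.I * ((p.2 : ℂ) + 1 / 2) ^ 2 * (2 * τ)))) *
          Complex.exp (2 * π * Complex.I * ((-p.2 : ℤ) : ℂ)) := by
            simp only [← Complex.exp_add]; congr 1; push_cast; ring
        _ = _ := by rw [exp_two_pi_int, mul_one]
  rw [key]; ring

theorem landen_two {τ : ℂ} (h : 0 < τ.im) : T2 τ ^ 2 = 2 * T2 (2 * τ) * T3 (2 * τ) := by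
  have key : T2 τ * T2 τ = T2 (2 * τ) * T3 (2 * τ) + T3 (2 * τ) * T2 (2 * τ) := by
    refine hasSum_split (hasSum_T2 h) (hasSum_T2 h) ?_ ?_
    · refine (hasSum_prod (hasSum_T2 (im_two h)) (hasSum_T3 (im_two h))).congr_fun ?_ |>
        fun h => h
      intro p
      rw [← Complex.exp_add, ← Complex.exp_add]; congr 1; push_cast; ring
    · have h1 := hasSum_prod (hasSum_T3 (im_two h)) (hasSum_T2 (im_two h))
      have h2 := ((Equiv.addRight (1 : ℤ)).prodCongr (Equiv.refl ℤ)).hasSum_iff.mpr h1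
      refine h2.congr_fun ?_ |> fun h => h
      rintro ⟨m, n⟩
      change _ = Complex.exp (π * Complex.I * ((m + 1 : ℤ) : ℂ) ^ 2 * (2 * τ)) *
        Complex.exp (π * Complex.I * ((n : ℂ) + 1 / 2) ^ 2 * (2 * τ))
      rw [← Complex.exp_add, ← Complex.exp_add]; congr 1; push_cast; ring
  linear_combination key

/-- Jacobi: `θ3⁴ = θ2⁴ + θ4⁴` -/
theorem jacobi {τ : ℂ} (h : 0 < τ.im) : T3 τ ^ 4 = T2 τ ^ 4 + T4 τ ^ 4 := by
  have h1 := landen_add h
  have h2 := landen_sub h
  have h3 := landen_two h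
  have : T2 τ ^ 4 = (2 * T3 (2 * τ) ^ 2) * (2 * T2 (2 * τ) ^ 2) := by
    rw [show T2 τ ^ 4 = (T2 τ ^ 2) ^ 2 by ring, h3]; ring
  rw [this, ← h1, ← h2]; ring

end

end MM7T
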