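import Mathlib
import Pool.Agent.MM7T.Theta

/-!
# MM7T.Trans: translations and inversion of the theta constants, limits at `i∞`, holomorphy
-/

open Real Filter Topology

namespace MM7T

noncomputable section

private theorem shift_half (z τ : ℂ) : jacobiTheta₂ z (τ + 1) = jacobiTheta₂ (z + 1 / 2) τ := by
  unfold jacobiTheta₂
  refine tsum_congr fun n => ?_
  unfold jacobiTheta₂_term
  have h : (2 * π * Complex.I * n * z + π * Complex.I * (n : ℂ) ^ 2 * (τ + 1) : ℂ) =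
      (2 * π * Complex.I * n * (z + 1 / 2) + π * Complex.I * (n : ℂ) ^ 2 * τ) +
        π * Complex.I * ((n : ℂ) ^ 2 - n) := by ring
  obtain ⟨k, hk⟩ : Even (n * (n - 1)) := Int.even_mul_pred_self n
  have hk' : ((n : ℂ) ^ 2 - n) = 2 * (k : ℂ) := by
    have : ((n * (n - 1) : ℤ) : ℂ) = ((k + k : ℤ) : ℂ) := by rw [hk]
    push_cast at this
    linear_combination this
  have h2 : Complex.exp (π * Complex.I * ((n : ℂ) ^ 2 - n)) = 1 := by
    rw [hk', show (π * Complex.I * (2 * (k : ℂ)) : ℂ) = k * (2 * π * Complex.I) by ring,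
      Complex.exp_int_mul_two_pi_mul_I]
  rw [h, Complex.exp_add, h2, mul_one]

theorem T3_add_one {τ : ℂ} (h : 0 < τ.im) : T3 (τ + 1) = T4 τ := by
  unfold T3 T4
  rw [shift_half, zero_add]

theorem T4_add_one {τ : ℂ} (h : 0 < τ.im) : T4 (τ + 1) = T3 τ := by
  unfold T3 T4
  rw [shift_half, show (1 / 2 + 1 / 2 : ℂ) = 0 + 1 by norm_num, jacobiTheta₂_add_left]

theorem T2_add_one {τ : ℂ} (h : 0 < τ.im) :
    T2 (τ + 1) = Complex.exp (π * Complex.I / 4) * T2 τ := by
  unfold T2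
  rw [shift_half, show ((τ + 1) / 2 + 1 / 2 : ℂ) = τ / 2 + 1 by ring, jacobiTheta₂_add_left,
    show (π * Complex.I * (τ + 1) / 4 : ℂ) = π * Complex.I / 4 + π * Complex.I * τ / 4 by ring,
    Complex.exp_add, mul_assoc]

private theorem ne_of_im {τ : ℂ} (h : 0 < τ.im) : τ ≠ 0 := by
  rintro rfl
  simp at h

private theorem half_pow {τ : ℂ} (h : 0 < τ.im) :
    ((-Complex.I * τ) ^ (1 / 2 : ℂ)) ^ 8 = τ ^ 4 ∧ (-Complex.I * τ) ^ (1 / 2 : ℂ) ≠ 0 := by
  have h0 : -Complex.I * τ ≠ 0 :=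
    mul_ne_zero (neg_ne_zero.2 Complex.I_ne_zero) (ne_of_im h)
  constructor
  · rw [← Complex.cpow_nat_mul]
    have : (((8 : ℕ) : ℂ) * (1 / 2)) = ((4 : ℕ) : ℂ) := by norm_num
    rw [this, Complex.cpow_natCast, mul_pow]
    have : (-Complex.I) ^ 4 = 1 := by
      rw [neg_pow, Complex.I_pow_four]; norm_num
    rw [this, one_mul]
  · rw [Ne, Complex.cpow_eq_zero_iff]
    tauto

private theorem T4_S' {τ : ℂ} (h : 0 < τ.im) :
    T4 (-1 / τ) = (-Complex.I * τ) ^ (1 / 2 : ℂ) * T2 τ := by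
  have h0 := ne_of_im h
  obtain ⟨_, hc⟩ := half_pow h
  have key := jacobiTheta₂_functional_equation (τ / 2) τ
  have e1 : τ / 2 / τ = 1 / 2 := by field_simp
  have e2 : -(π : ℂ) * Complex.I * (τ / 2) ^ 2 / τ = -(π * Complex.I * τ / 4) := by
    field_simp; ring
  rw [e1, e2] at key
  unfold T4 T2
  rw [key, Complex.exp_neg]
  have he := Complex.exp_ne_zero (π * Complex.I * τ / 4)
  field_simp

theorem T3_S {τ : ℂ} (h : 0 < τ.im) : T3 (-1 / τ) ^ 8 = τ ^ 4 * T3 τ ^ 8 := by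
  obtain ⟨h8, hc⟩ := half_pow h
  have key := jacobiTheta₂_functional_equation 0 τ
  have e2 : -(π : ℂ) * Complex.I * 0 ^ 2 / τ = 0 := by ring
  rw [zero_div, e2, Complex.exp_zero, mul_one] at key
  have : T3 (-1 / τ) = (-Complex.I * τ) ^ (1 / 2 : ℂ) * T3 τ := by
    unfold T3
    rw [key, ← mul_assoc, mul_one_div_cancel hc, one_mul]
  rw [this, mul_pow, h8]

theorem T4_S {τ : ℂ} (h : 0 < τ.im) : T4 (-1 / τ) ^ 8 = τ ^ 4 * T2 τ ^ 8 := by
  rw [T4_S' h, mul_pow, (half_pow h).1]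

private theorem inv_im' {τ : ℂ} (h : 0 < τ.im) : 0 < (-1 / τ).im := by
  have h0 := ne_of_im h
  rw [neg_div, Complex.neg_im, one_div, Complex.inv_im, neg_div, neg_neg]
  exact div_pos h (Complex.normSq_pos.2 h0)

theorem T2_S {τ : ℂ} (h : 0 < τ.im) : T2 (-1 / τ) ^ 8 = τ ^ 4 * T4 τ ^ 8 := by
  have h0 := ne_of_im h
  have key := T4_S (inv_im' h)
  have e : -1 / (-1 / τ) = τ := by field_simp
  rw [e] at key
  rw [key]
  field_simp

theorem T3_diff : DifferentiableOn ℂ T3 {τ | 0 < τ.im} := fun _ h =>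
  (differentiableAt_jacobiTheta₂_snd 0 h).differentiableWithinAt

theorem T4_diff : DifferentiableOn ℂ T4 {τ | 0 < τ.im} := fun _ h =>
  (differentiableAt_jacobiTheta₂_snd (1 / 2) h).differentiableWithinAt

theorem T2_diff : DifferentiableOn ℂ T2 {τ | 0 < τ.im} := by
  intro τ h
  apply DifferentiableAt.differentiableWithinAt
  unfold T2
  refine DifferentiableAt.mul (by fun_prop) ?_
  have h1 : DifferentiableAt ℂ (fun p : ℂ × ℂ => jacobiTheta₂ p.1 p.2) (τ / 2, τ) :=
    (hasFDerivAt_jacobiTheta₂ (τ / 2) h).differentiableAt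
  have h2 : DifferentiableAt ℂ (fun τ : ℂ => (τ / 2, τ)) τ := by fun_prop
  exact h1.comp (f := fun τ : ℂ => (τ / 2, τ)) τ h2

private theorem exp_lim (c : ℝ) (hc : 0 < c) :
    Tendsto (fun τ : ℂ => rexp (-c * τ.im)) (comap Complex.im atTop) (𝓝 0) := by
  have h1 : Tendsto (fun x : ℝ => rexp (-c * x)) atTop (𝓝 0) := by
    apply Real.tendsto_exp_atBot.comp
    exact tendsto_id.const_mul_atTop_of_neg (by linarith)
  exact h1.comp tendsto_comap

private theorem T3_lim0 : Tendsto T3 (comap Complex.im atTop) (𝓝 1) := by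
  have h1 := isBigO_at_im_infty_jacobiTheta_sub_one.trans_tendsto (exp_lim π Real.pi_pos)
  have h2 : T3 = fun τ => (jacobiTheta τ - 1) + 1 := by
    funext τ
    unfold T3
    rw [jacobiTheta_eq_jacobiTheta₂]
    ring
  rw [h2]
  simpa using h1.add_const (1 : ℂ)

theorem T3_lim : Tendsto (fun τ : UpperHalfPlane => T3 τ) UpperHalfPlane.atImInfty (𝓝 1) :=
  T3_lim0.comp UpperHalfPlane.tendsto_coe_atImInfty

theorem T4_lim : Tendsto (fun τ : UpperHalfPlane => T4 τ) UpperHalfPlane.atImInfty (𝓝 1) := by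
  have h1 : Tendsto (fun τ : ℂ => τ + 1) (comap Complex.im atTop) (comap Complex.im atTop) := by
    rw [tendsto_comap_iff]
    have : (Complex.im ∘ fun τ : ℂ => τ + 1) = Complex.im := by
      funext τ; simp
    rw [this]
    exact tendsto_comap
  have h2 := (T3_lim0.comp h1).comp UpperHalfPlane.tendsto_coe_atImInfty
  refine h2.congr fun τ => ?_
  exact T3_add_one τ.im_pos

/-- the normalised `θ2` -/
private theorem g_lim : Tendsto (fun τ : ℂ => jacobiTheta₂ (τ / 2) τ) (comap Complex.im atTop)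
    (𝓝 2) := by
  have hterm : ∀ (n : ℤ) (τ : ℂ), jacobiTheta₂_term n (τ / 2) τ =
      Complex.exp (π * Complex.I * ((n * (n + 1) : ℤ) : ℂ) * τ) := by
    intro n τ
    unfold jacobiTheta₂_term
    congr 1
    push_cast
    ring
  have hnorm : ∀ (n : ℤ) (τ : ℂ), ‖jacobiTheta₂_term n (τ / 2) τ‖ =
      rexp (-(π * ((n * (n + 1) : ℤ) : ℝ)) * τ.im) := by
    intro n τ
    rw [norm_jacobiTheta₂_term]
    congr 1
    simp
    ring
  have hpos : ∀ n : ℤ, (0 : ℝ) ≤ ((n * (n + 1) : ℤ) : ℝ) := by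
    intro n
    have : 0 ≤ n * (n + 1) := by
      rcases le_or_gt 0 n with h | h
      · positivity
      · nlinarith
    exact_mod_cast this
  have hlimsum : (∑' n : ℤ, (if n = 0 ∨ n = -1 then (1 : ℂ) else 0)) = 2 := by
    rw [tsum_eq_sum (s := {0, -1})]
    · rw [Finset.sum_pair (by norm_num)]
      norm_num
    · intro n hn
      rw [Finset.mem_insert, Finset.mem_singleton] at hn
      exact if_neg hn
  suffices hs : Tendsto (fun τ : ℂ => jacobiTheta₂ (τ / 2) τ) (comap Complex.im atTop)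
      (𝓝 (∑' n : ℤ, (if n = 0 ∨ n = -1 then (1 : ℂ) else 0))) by rwa [hlimsum] at hs
  unfold jacobiTheta₂
  refine tendsto_tsum_of_dominated_convergence
    (bound := fun n : ℤ => ((|n| : ℤ) : ℝ) ^ 0 * rexp (-π * (1 * (n : ℝ) ^ 2 - 2 * (1 / 2) * |n|)))
    ?_ ?_ ?_
  · have := summable_pow_mul_jacobiTheta₂_term_bound (1 / 2) one_pos 0
    refine this.congr fun n => ?_
    push_cast
    ring_nf
  · intro n
    by_cases hn : n = 0 ∨ n = -1
    · rw [if_pos hn]
      refine tendsto_const_nhds.congr fun τ => ?_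
      rw [hterm]
      have : n * (n + 1) = 0 := by
        rcases hn with rfl | rfl <;> norm_num
      rw [this]
      simp
    · rw [if_neg hn, tendsto_zero_iff_norm_tendsto_zero]
      have h1 : (0 : ℝ) < ((n * (n + 1) : ℤ) : ℝ) := by
        have h2 : n * (n + 1) ≠ 0 := by
          intro h
          rcases mul_eq_zero.1 h with h | h
          · exact hn (Or.inl h)
          · exact hn (Or.inr (by linarith))
        have h3 := hpos n
        have h4 : (0 : ℤ) ≤ n * (n + 1) := by exact_mod_cast h3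
        have h5 : (0 : ℤ) < n * (n + 1) := lt_of_le_of_ne h4 (Ne.symm h2)
        exact_mod_cast h5
      refine (exp_lim (π * ((n * (n + 1) : ℤ) : ℝ)) (by positivity)).congr fun τ => ?_
      exact (hnorm n τ).symm
  · rw [Filter.eventually_comap]
    filter_upwards [eventually_ge_atTop (1 : ℝ)] with y hy τ hτ n
    rw [hnorm, pow_zero, one_mul]
    apply Real.exp_le_exp.2
    have h1 := hpos n
    have h2 : (1 : ℝ) ≤ τ.im := by rw [hτ]; exact hy
    have h3 : π * ((n * (n + 1) : ℤ) : ℝ) ≤ π * ((n * (n + 1) : ℤ) : ℝ) * τ.im := by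
      have : 0 ≤ π * ((n * (n + 1) : ℤ) : ℝ) := by positivity
      nlinarith
    have h4 : (n : ℝ) ^ 2 - |(n : ℝ)| ≤ ((n * (n + 1) : ℤ) : ℝ) := by
      push_cast
      have := neg_abs_le (n : ℝ)
      nlinarith
    have h5 : π * ((n : ℝ) ^ 2 - |(n : ℝ)|) ≤ π * ((n * (n + 1) : ℤ) : ℝ) :=
      mul_le_mul_of_nonneg_left h4 Real.pi_pos.le
    have h6 : (1 : ℝ) * (n : ℝ) ^ 2 - 2 * (1 / 2) * |(n : ℝ)| = (n : ℝ) ^ 2 - |(n : ℝ)| := by ring
    push_cast at h3 h5 ⊢
    rw [h6]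
    linarith

theorem T2_lim : Tendsto (fun τ : UpperHalfPlane => T2 τ) UpperHalfPlane.atImInfty (𝓝 0) := by
  have h1 : Tendsto T2 (comap Complex.im atTop) (𝓝 (0 * 2)) := by
    unfold T2
    refine Tendsto.mul ?_ g_lim
    rw [tendsto_zero_iff_norm_tendsto_zero]
    refine (exp_lim (π / 4) (by positivity)).congr fun τ => ?_
    rw [Complex.norm_exp]
    congr 1
    simp
    ring
  rw [zero_mul] at h1
  exact h1.comp UpperHalfPlane.tendsto_coe_atImInfty

/-- `θ2(τ)⁸ / e^{2πiτ} → 256` -/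
theorem T2_lim' : Tendsto (fun τ : UpperHalfPlane =>
    T2 τ ^ 8 / Complex.exp (2 * π * Complex.I * τ)) UpperHalfPlane.atImInfty (𝓝 256) := by
  have h1 : Tendsto (fun τ : ℂ => jacobiTheta₂ (τ / 2) τ ^ 8) (comap Complex.im atTop)
      (𝓝 (2 ^ 8)) := g_lim.pow 8
  have h2 := h1.comp UpperHalfPlane.tendsto_coe_atImInfty
  norm_num at h2
  refine h2.congr fun τ => ?_
  simp only [Function.comp]
  unfold T2
  rw [mul_pow, ← Complex.exp_nat_mul]
  have e : (((8 : ℕ) : ℂ) * (π * Complex.I * (τ : ℂ) / 4)) = 2 * π * Complex.I * τ := by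
    push_cast; ring
  rw [e, mul_div_assoc, mul_comm, div_mul_cancel₀ _ (Complex.exp_ne_zero _)]

end

end MM7T
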