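import Mathlib
import Pool.Agent.MM7T.Landen
import Pool.Agent.MM7T.Trans

/-!
# MM7T.Level: identification with the level one forms `E₄` and `Δ`
-/

open Real Filter Topology UpperHalfPlane ModularForm MatrixGroups

namespace MM7T

noncomputable section

/-- slash invariance under `S` and `T` from the classical functional equations -/
theorem slash_all {F : ℂ → ℂ} {k : ℕ}
    (hS : ∀ τ : ℂ, 0 < τ.im → F (-1 / τ) = τ ^ k * F τ)
    (hT : ∀ τ : ℂ, 0 < τ.im → F (τ + 1) = F τ) (γ : SL(2, ℤ)) :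
    (fun τ : ℍ => F τ) ∣[(k : ℤ)] γ = (fun τ : ℍ => F τ) := by
  refine SlashInvariantForm.slash_action_generators_SL2Z ?_ ?_ γ
  · ext z
    have hz : (z : ℂ) ≠ 0 := z.ne_zero
    rw [SL_slash_apply, UpperHalfPlane.modular_S_smul]
    have h := hS z z.2
    have e : (-(z : ℂ))⁻¹ = -1 / z := by field_simp
    simp only [ModularGroup.denom_S, zpow_neg, zpow_natCast]
    change F ((-(z : ℂ))⁻¹) * _ = _
    rw [e, h]
    field_simp
  · ext z
    rw [SL_slash_apply, modular_T_smul]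
    have h := hT z z.2
    have hd : denom ModularGroup.T z = 1 := by
      rw [ModularGroup.denom_apply]; simp [ModularGroup.T]
    rw [hd, one_zpow, mul_one]
    simp only [coe_vadd]
    rw [← h, add_comm]
    simp

/-- modular form of level one from classical functional equations and a limit at `i∞` -/
def mkForm (F : ℂ → ℂ) (k : ℕ)
    (hd : DifferentiableOn ℂ F {τ | 0 < τ.im})
    (hS : ∀ τ : ℂ, 0 < τ.im → F (-1 / τ) = τ ^ k * F τ)
    (hT : ∀ τ : ℂ, 0 < τ.im → F (τ + 1) = F τ)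
    {l : ℂ} (hl : Tendsto (fun τ : ℍ => F τ) atImInfty (𝓝 l)) : ModularForm 𝒮ℒ (k : ℤ) where
  toFun := fun τ : ℍ => F τ
  slash_action_eq' A hA := by
    obtain ⟨A, rfl⟩ := hA
    exact slash_all hS hT A
  holo' := by
    rw [UpperHalfPlane.mdifferentiable_iff]
    refine hd.congr fun z hz ↦ ?_
    simp [ofComplex_apply_of_im_pos hz]
  bdd_at_cusps' hc := by
    rw [Subgroup.IsArithmetic.isCusp_iff_isCusp_SL2Z] at hc
    rw [OnePoint.isBoundedAt_iff_forall_SL2Z hc]
    intro γ _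
    rw [slash_all hS hT]
    exact hl.isBigO_one ℝ

/-- cusp form of level one from classical functional equations and vanishing at `i∞` -/
def mkCusp (F : ℂ → ℂ) (k : ℕ)
    (hd : DifferentiableOn ℂ F {τ | 0 < τ.im})
    (hS : ∀ τ : ℂ, 0 < τ.im → F (-1 / τ) = τ ^ k * F τ)
    (hT : ∀ τ : ℂ, 0 < τ.im → F (τ + 1) = F τ)
    (hl : Tendsto (fun τ : ℍ => F τ) atImInfty (𝓝 0)) : CuspForm 𝒮ℒ (k : ℤ) where
  toFun := fun τ : ℍ => F τ
  slash_action_eq' A hA := by
    obtain ⟨A, rfl⟩ := hA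
    exact slash_all hS hT A
  holo' := by
    rw [UpperHalfPlane.mdifferentiable_iff]
    refine hd.congr fun z hz ↦ ?_
    simp [ofComplex_apply_of_im_pos hz]
  zero_at_cusps' hc := by
    rw [Subgroup.IsArithmetic.isCusp_iff_isCusp_SL2Z] at hc
    rw [OnePoint.isZeroAt_iff_forall_SL2Z hc]
    intro γ _
    rw [slash_all hS hT]
    exact hl

theorem T2_add_one8 {τ : ℂ} (h : 0 < τ.im) : T2 (τ + 1) ^ 8 = T2 τ ^ 8 := by
  rw [T2_add_one h, mul_pow, ← Complex.exp_nat_mul]
  rw [show (((8 : ℕ) : ℂ) * (π * Complex.I / 4)) = 2 * π * Complex.I by push_cast; ring,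
    Complex.exp_two_pi_mul_I, one_mul]

theorem E4_eq (τ : UpperHalfPlane) :
    ModularForm.E₄ τ = (T2 τ ^ 8 + T3 τ ^ 8 + T4 τ ^ 8) / 2 := by
  have hl : Tendsto (fun τ : ℍ => (fun τ : ℂ => (T2 τ ^ 8 + T3 τ ^ 8 + T4 τ ^ 8) / 2) τ)
      atImInfty (𝓝 1) := by
    have := (((T2_lim.pow 8).add (T3_lim.pow 8)).add (T4_lim.pow 8)).div_const 2
    norm_num at this
    exact this
  let f : ModularForm 𝒮ℒ ((4 : ℕ) : ℤ) := mkForm (fun τ => (T2 τ ^ 8 + T3 τ ^ 8 + T4 τ ^ 8) / 2) 4
    ((((T2_diff.pow 8).add (T3_diff.pow 8)).add (T4_diff.pow 8)).div_const 2)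
    (fun τ h => by
      simp only [T2_S h, T3_S h, T4_S h]; ring)
    (fun τ h => by
      simp only [T2_add_one8 h, T3_add_one h, T4_add_one h]; ring) hl
  obtain ⟨c, hc⟩ : ∃ c : ℂ, c • ModularForm.E₄ = f :=
    (finrank_eq_one_iff_of_nonzero' ModularForm.E₄ (EisensteinSeries.E_ne_zero _ ⟨2, rfl⟩)).mp
      (Module.rank_eq_one_iff_finrank_eq_one.mp levelOne_weight_four_rank_one) f
  have h1 : (qExpansion 1 (f : ℍ → ℂ)).coeff 0 = 1 := by
    rw [UpperHalfPlane.qExpansion_coeff_zero one_pos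
      (ModularFormClass.analyticAt_cuspFunction_zero f one_pos one_mem_strictPeriods_SL)
      (SlashInvariantFormClass.periodic_comp_ofComplex f one_mem_strictPeriods_SL)]
    exact hl.limUnder_eq
  have h2 : (qExpansion 1 (f : ℍ → ℂ)).coeff 0 = c := by
    rw [← hc, FunLike.coe_smul,
      ModularForm.qExpansion_smul one_pos one_mem_strictPeriods_SL c ModularForm.E₄,
      PowerSeries.coeff_smul, EisensteinSeries.E_qExpansion_coeff_zero _ ⟨2, rfl⟩]
    simp
  have hc1 : c = 1 := h2.symm.trans h1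
  rw [hc1, one_smul] at hc
  have := DFunLike.congr_fun hc τ
  exact this

theorem Delta_eq (τ : UpperHalfPlane) :
    256 * ModularForm.discriminant τ = (T2 τ * T3 τ * T4 τ) ^ 8 := by
  have hl : Tendsto (fun τ : ℍ => (fun τ : ℂ => (T2 τ * T3 τ * T4 τ) ^ 8) τ)
      atImInfty (𝓝 0) := by
    have := (((T2_lim).mul (T3_lim)).mul (T4_lim)).pow 8
    norm_num at this
    exact this
  let f : CuspForm 𝒮ℒ ((12 : ℕ) : ℤ) := mkCusp (fun τ => (T2 τ * T3 τ * T4 τ) ^ 8) 12
    (((T2_diff.mul T3_diff).mul T4_diff).pow 8)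
    (fun τ h => by
      simp only [mul_pow, T2_S h, T3_S h, T4_S h]; ring)
    (fun τ h => by
      simp only [mul_pow, T2_add_one8 h, T3_add_one h, T4_add_one h]; ring) hl
  obtain ⟨c, hc⟩ : ∃ c : ℂ, c • CuspForm.discriminant = f :=
    CuspForm.exists_smul_discriminant_of_weight_eq_twelve f
  have hc' : ∀ τ : ℍ, c * ModularForm.discriminant τ = (T2 τ * T3 τ * T4 τ) ^ 8 := fun τ =>
    DFunLike.congr_fun hc τ
  have hD : Tendsto (fun τ : ℍ => ModularForm.discriminant τ / Complex.exp (2 * π * Complex.I * τ))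
      atImInfty (𝓝 1) := by
    refine tendsto_atImInfty_tprod_one_sub_eta_q_pow.congr fun z => ?_
    rw [discriminant_eq_q_prod, Function.Periodic.qParam]
    simp only [Complex.ofReal_one, div_one]
    rw [mul_div_cancel_left₀ _ (Complex.exp_ne_zero _)]
  have hT : Tendsto (fun τ : ℍ => (T2 τ * T3 τ * T4 τ) ^ 8 / Complex.exp (2 * π * Complex.I * τ))
      atImInfty (𝓝 256) := by
    have := (T2_lim'.mul (T3_lim.pow 8)).mul (T4_lim.pow 8)
    norm_num at this
    refine this.congr fun z => ?_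
    ring
  have hc2 : c = 256 := by
    have h1 := hD.const_mul c
    rw [mul_one] at h1
    refine tendsto_nhds_unique (h1.congr fun z => ?_) hT
    rw [← hc' z]; ring
  rw [← hc2]; exact hc' τ

end

end MM7T
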