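import Pool.Agent.MM7.Defs

/-!
# MM7T: the Lambert series `Q4` (MP_870c49_nt, part T)

`Q4 y = 4 Σ_{m,n odd > 0} χ(m) χ(n) n³ exp(-π m n y / 2)`
-/

open Real

namespace MM7

noncomputable section

/-- `4 Σ_{i,j ≥ 0} (-1)^(i+j) (2j+1)³ exp(-π (2i+1)(2j+1) y / 2)` -/
def Q4 (y : ℝ) : ℝ :=
  4 * ∑' p : ℕ × ℕ, (-1:ℝ) ^ (p.1 + p.2) * (2 * (p.2:ℝ) + 1) ^ 3
    * Real.exp (-(π * (2 * (p.1:ℝ) + 1) * (2 * (p.2:ℝ) + 1) * y / 2))

/-- a dominating series -/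
theorem Q4_dom_summable {y : ℝ} (hy : 0 < y) :
    Summable (fun p : ℕ × ℕ => Real.exp (-(π * y / 4)) ^ p.1 *
      ((2 * (p.2:ℝ) + 1) ^ 3 * Real.exp (-(π * y / 4)) ^ p.2)) := by
  set r := Real.exp (-(π * y / 4)) with hr
  have hr0 : 0 < r := Real.exp_pos _
  have hr1 : r < 1 := by
    rw [hr, ← Real.exp_zero]
    apply Real.exp_lt_exp.mpr
    have := Real.pi_pos
    have : 0 < π * y / 4 := by positivity
    linarith
  have h1 : Summable (fun i : ℕ => r ^ i) := summable_geometric_of_lt_one hr0.le hr1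
  have hn : ‖r‖ < 1 := by rw [Real.norm_eq_abs, abs_of_pos hr0]; exact hr1
  have hk : ∀ k : ℕ, Summable (fun j : ℕ => (j:ℝ) ^ k * r ^ j) := fun k =>
    summable_pow_mul_geometric_of_norm_lt_one k hn
  have h2 : Summable (fun j : ℕ => (2 * (j:ℝ) + 1) ^ 3 * r ^ j) := by
    have := (((hk 3).mul_left 8).add ((hk 2).mul_left 12)).add
      (((hk 1).mul_left 6).add ((hk 0).mul_left 1))
    refine this.congr (fun j => ?_)
    ring
  exact Summable.mul_of_nonneg h1 h2 (fun i => by positivity) (fun j => by positivity)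

theorem Q4_bound {y : ℝ} (hy : 0 < y) (p : ℕ × ℕ) :
    Real.exp (-(π * (2 * (p.1:ℝ) + 1) * (2 * (p.2:ℝ) + 1) * y / 2)) ≤
      Real.exp (-(π * y / 4)) ^ p.1 * Real.exp (-(π * y / 4)) ^ p.2 := by
  rw [← Real.exp_nat_mul, ← Real.exp_nat_mul, ← Real.exp_add]
  apply Real.exp_le_exp.mpr
  have hp := Real.pi_pos
  have h1 : (0:ℝ) ≤ p.1 := Nat.cast_nonneg _
  have h2 : (0:ℝ) ≤ p.2 := Nat.cast_nonneg _
  have h3 : 0 < π * y := by positivity
  nlinarith [mul_nonneg h1 h2, mul_nonneg h3.le h1, mul_nonneg h3.le h2,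
    mul_nonneg h3.le (mul_nonneg h1 h2)]

theorem Q4_abs_summable {y : ℝ} (hy : 0 < y) :
    Summable (fun p : ℕ × ℕ => (2 * (p.2:ℝ) + 1) ^ 3
    * Real.exp (-(π * (2 * (p.1:ℝ) + 1) * (2 * (p.2:ℝ) + 1) * y / 2))) := by
  refine Summable.of_nonneg_of_le (fun p => by positivity) (fun p => ?_) (Q4_dom_summable hy)
  have := Q4_bound hy p
  have h3 : (0:ℝ) ≤ (2 * (p.2:ℝ) + 1) ^ 3 := by positivity
  calc (2 * (p.2:ℝ) + 1) ^ 3 * Real.exp (-(π * (2 * (p.1:ℝ) + 1) * (2 * (p.2:ℝ) + 1) * y / 2))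
      ≤ (2 * (p.2:ℝ) + 1) ^ 3 * (Real.exp (-(π * y / 4)) ^ p.1 * Real.exp (-(π * y / 4)) ^ p.2) :=
        mul_le_mul_of_nonneg_left this h3
    _ = _ := by ring

theorem Q4_summable {y : ℝ} (hy : 0 < y) :
    Summable (fun p : ℕ × ℕ => (-1:ℝ) ^ (p.1 + p.2) * (2 * (p.2:ℝ) + 1) ^ 3
    * Real.exp (-(π * (2 * (p.1:ℝ) + 1) * (2 * (p.2:ℝ) + 1) * y / 2))) := by
  refine Summable.of_norm_bounded (Q4_abs_summable hy) (fun p => ?_)
  rw [norm_mul, norm_mul, norm_pow, norm_neg, norm_one, one_pow, one_mul]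
  rw [Real.norm_of_nonneg (by positivity), Real.norm_of_nonneg (by positivity)]

end

end MM7
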