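import Mathlib
import Pool.Agent.MM7T.Level
import Pool.Agent.MM7T.Q4

/-!
# MM7T.PsiQ: `Psi = Q4` (helper34)

With `t = (1 + i y) / 4`, `t' = (-1 + i y) / 4` the nome `exp (2 π i t)` is `i x`,
`x = exp (- π y / 2)`, and `E₄(t) - E₄(t') = 120 i Psi = 120 i Q4`.
-/

open Real

namespace MM7T

noncomputable section

theorem hasSum_int_even_odd {f : ℤ → ℂ} {a b : ℂ} (he : HasSum (fun k => f (2 * k)) a)
    (ho : HasSum (fun k => f (2 * k + 1)) b) : HasSum f (a + b) := by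
  have := mul_right_injective₀ (two_ne_zero' ℤ)
  replace ho := ((add_left_injective 1).comp this).hasSum_range_iff.2 ho
  refine (this.hasSum_range_iff.2 he).add_isCompl ?_ ho
  simpa [Function.comp_def] using Int.isCompl_even_odd

theorem im_four {τ : ℂ} (h : 0 < τ.im) : 0 < (4 * τ).im := by
  have : (4 * τ).im = 4 * τ.im := by simp [Complex.mul_im]
  rw [this]; linarith

theorem T3_quarter {τ : ℂ} (h : 0 < τ.im) : T3 τ = T3 (4 * τ) + T2 (4 * τ) := by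
  refine (hasSum_T3 h).unique (hasSum_int_even_odd ?_ ?_)
  · refine (hasSum_T3 (im_four h)).congr_fun ?_
    intro n
    congr 1
    push_cast
    ring
  · refine (hasSum_T2 (im_four h)).congr_fun ?_
    intro n
    congr 1
    push_cast
    ring

theorem T4_quarter {τ : ℂ} (h : 0 < τ.im) : T4 τ = T3 (4 * τ) - T2 (4 * τ) := by
  rw [sub_eq_add_neg]
  refine (hasSum_T4 h).unique (hasSum_int_even_odd ?_ ?_)
  · refine (hasSum_T3 (im_four h)).congr_fun ?_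
    intro n
    have : ((-1 : ℂ)) ^ (2 * n).natAbs = 1 := by
      apply Even.neg_one_pow
      rw [Int.natAbs_even]
      exact even_two_mul n
    rw [this, one_mul]
    congr 1
    push_cast
    ring
  · refine (hasSum_T2 (im_four h)).neg.congr_fun ?_
    intro n
    have : ((-1 : ℂ)) ^ (2 * n + 1).natAbs = -1 := by
      apply Odd.neg_one_pow
      rw [Int.natAbs_odd]
      exact odd_two_mul_add_one n
    rw [this, neg_one_mul]
    congr 2
    push_cast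
    ring

/-- the two points -/
def tp (y : ℝ) (hy : 0 < y) : UpperHalfPlane :=
  ⟨(1 + y * Complex.I) / 4, by
    have : ((1 + (y:ℂ) * Complex.I) / 4).im = y / 4 := by
      simp
    rw [this]; linarith⟩

def tm (y : ℝ) (hy : 0 < y) : UpperHalfPlane :=
  ⟨(-1 + y * Complex.I) / 4, by
    have : ((-1 + (y:ℂ) * Complex.I) / 4).im = y / 4 := by
      simp
    rw [this]; linarith⟩

theorem tp_coe (y : ℝ) (hy : 0 < y) : ((tp y hy : UpperHalfPlane) : ℂ) = (1 + y * Complex.I) / 4 :=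
  rfl

theorem tm_coe (y : ℝ) (hy : 0 < y) : ((tm y hy : UpperHalfPlane) : ℂ) = (-1 + y * Complex.I) / 4 :=
  rfl

/-- the eighth root of unity -/
def z8 : ℂ := Complex.exp (π * Complex.I / 4)

theorem z8_sq : z8 ^ 2 = Complex.I := by
  rw [z8, ← Complex.exp_nat_mul]
  rw [show ((2:ℕ) : ℂ) * (π * Complex.I / 4) = π / 2 * Complex.I by push_cast; ring]
  exact Complex.exp_pi_div_two_mul_I

theorem im_axis {y : ℝ} (hy : 0 < y) : 0 < ((y : ℂ) * Complex.I).im := by simpa using hy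

theorem T3_tp {y : ℝ} (hy : 0 < y) :
    T3 (tp y hy) = (MM7.th4 y : ℂ) + z8 * (MM7.th2 y : ℂ) := by
  rw [T3_quarter (tp y hy).im_pos, tp_coe]
  rw [show 4 * ((1 + (y:ℂ) * Complex.I) / 4) = (y:ℂ) * Complex.I + 1 by ring]
  rw [T3_add_one (im_axis hy), T2_add_one (im_axis hy), T4_axis hy, T2_axis hy, z8]

theorem T4_tp {y : ℝ} (hy : 0 < y) :
    T4 (tp y hy) = (MM7.th4 y : ℂ) - z8 * (MM7.th2 y : ℂ) := by
  rw [T4_quarter (tp y hy).im_pos, tp_coe]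
  rw [show 4 * ((1 + (y:ℂ) * Complex.I) / 4) = (y:ℂ) * Complex.I + 1 by ring]
  rw [T3_add_one (im_axis hy), T2_add_one (im_axis hy), T4_axis hy, T2_axis hy, z8]

theorem im_shift {y : ℝ} (hy : 0 < y) : 0 < (-1 + (y : ℂ) * Complex.I).im := by simpa using hy

theorem T3_shift {y : ℝ} (hy : 0 < y) : T3 (-1 + (y:ℂ) * Complex.I) = (MM7.th4 y : ℂ) := by
  rw [← T4_add_one (im_shift hy)]
  rw [show -1 + (y:ℂ) * Complex.I + 1 = (y:ℂ) * Complex.I by ring, T4_axis hy]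

theorem z8_T2_shift {y : ℝ} (hy : 0 < y) :
    z8 * T2 (-1 + (y:ℂ) * Complex.I) = (MM7.th2 y : ℂ) := by
  have := T2_add_one (im_shift hy)
  rw [show -1 + (y:ℂ) * Complex.I + 1 = (y:ℂ) * Complex.I by ring, T2_axis hy] at this
  rw [this, z8]

theorem E4_theta (τ : UpperHalfPlane) :
    ModularForm.E₄ τ = T3 τ ^ 8 - T3 τ ^ 4 * T4 τ ^ 4 + T4 τ ^ 8 := by
  have h := jacobi τ.im_pos
  have h2 : T2 τ ^ 8 = (T3 τ ^ 4 - T4 τ ^ 4) ^ 2 := by
    have : T2 τ ^ 4 = T3 τ ^ 4 - T4 τ ^ 4 := by rw [h]; ring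
    rw [← this]; ring
  rw [E4_eq, h2]
  ring

theorem E4_diff_theta {y : ℝ} (hy : 0 < y) :
    ModularForm.E₄ (tp y hy) - ModularForm.E₄ (tm y hy) = 120 * Complex.I * (MM7.Psi y : ℂ) := by
  set a : ℂ := (MM7.th2 y : ℂ) with ha
  set b : ℂ := (MM7.th4 y : ℂ) with hb
  set v : ℂ := T2 (-1 + (y:ℂ) * Complex.I) with hv
  have hv2 : v ^ 2 = -Complex.I * a ^ 2 := by
    have h1 : z8 * v = a := z8_T2_shift hy
    have h2 : Complex.I * v ^ 2 = a ^ 2 := by rw [← h1, mul_pow, z8_sq]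
    calc v ^ 2 = -(Complex.I * Complex.I) * v ^ 2 := by rw [Complex.I_mul_I]; ring
      _ = -Complex.I * (Complex.I * v ^ 2) := by ring
      _ = _ := by rw [h2]
  have h3 : T3 (tm y hy) = b + v := by
    rw [T3_quarter (tm y hy).im_pos, tm_coe]
    rw [show 4 * ((-1 + (y:ℂ) * Complex.I) / 4) = -1 + (y:ℂ) * Complex.I by ring]
    rw [T3_shift hy]
  have h4 : T4 (tm y hy) = b - v := by
    rw [T4_quarter (tm y hy).im_pos, tm_coe]
    rw [show 4 * ((-1 + (y:ℂ) * Complex.I) / 4) = -1 + (y:ℂ) * Complex.I by ring]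
    rw [T3_shift hy]
  have key : ∀ w : ℂ, (b + w) ^ 8 - (b + w) ^ 4 * (b - w) ^ 4 + (b - w) ^ 8
      = b ^ 8 + 60 * b ^ 6 * w ^ 2 + 134 * b ^ 4 * (w ^ 2) ^ 2 + 60 * b ^ 2 * (w ^ 2) ^ 3
        + (w ^ 2) ^ 4 := by
    intro w; ring
  have hz : (z8 * a) ^ 2 = Complex.I * a ^ 2 := by rw [mul_pow, z8_sq]
  rw [E4_theta, E4_theta, T3_tp hy, T4_tp hy, h3, h4, ← ha, ← hb, key, key, hz, hv2]
  have hPsi : (MM7.Psi y : ℂ) = a ^ 2 * b ^ 2 * (b ^ 4 - a ^ 4) := by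
    rw [MM7.Psi, ha, hb]; push_cast; ring
  rw [hPsi]
  have hI : Complex.I ^ 3 = -Complex.I := by
    rw [pow_succ, Complex.I_sq]; ring
  have e1 : (Complex.I * a ^ 2) ^ 3 = -Complex.I * a ^ 6 := by rw [mul_pow, hI]; ring
  have e2 : (-Complex.I * a ^ 2) ^ 3 = Complex.I * a ^ 6 := by
    rw [mul_pow, neg_pow, hI]; ring
  rw [e1, e2]
  ring

/-- the double series of `E₄` -/
theorem E4_double (τ : UpperHalfPlane) :
    ModularForm.E₄ τ = 1 + 240 * ∑' c : ℕ+ × ℕ+,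
      ((c.2 : ℕ) : ℂ) ^ 3 * Complex.exp (2 * π * Complex.I * τ) ^ ((c.1 : ℕ) * (c.2 : ℕ)) := by
  have hr := UpperHalfPlane.norm_exp_two_pi_I_lt_one τ
  have h := EisensteinSeries.q_expansion_bernoulli (k := 4) (by norm_num) ⟨2, rfl⟩ τ
  have h1 := tsum_prod_pow_eq_tsum_sigma 3 hr
  have h2 := (summable_prod_mul_pow 3 hr).tsum_prod
  rw [ModularForm.E₄, h, h2, h1]
  have hb : bernoulli 4 = -1 / 30 := by decide +kernel
  rw [hb]
  simp only [zpow_natCast]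
  push_cast
  ring

theorem I_pow_sub_even {N : ℕ} (h : Even N) : Complex.I ^ N - (-Complex.I) ^ N = 0 := by
  rw [h.neg_pow, sub_self]

theorem I_pow_sub_odd (i j : ℕ) :
    Complex.I ^ ((2 * i + 1) * (2 * j + 1)) - (-Complex.I) ^ ((2 * i + 1) * (2 * j + 1))
      = 2 * Complex.I * (-1) ^ (i + j) := by
  have hodd : Odd ((2 * i + 1) * (2 * j + 1)) :=
    (odd_two_mul_add_one i).mul (odd_two_mul_add_one j)
  rw [hodd.neg_pow]
  have : Complex.I ^ ((2 * i + 1) * (2 * j + 1)) = Complex.I * (-1) ^ (i + j) := by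
    rw [show (2 * i + 1) * (2 * j + 1) = 2 * (i * j * 2 + (i + j)) + 1 by ring, pow_succ, pow_mul,
      Complex.I_sq, pow_add, mul_comm (i * j) 2, pow_mul]
    norm_num
    ring
  rw [this]
  ring

theorem exp_tp {y : ℝ} (hy : 0 < y) : Complex.exp (2 * π * Complex.I * (tp y hy))
    = Complex.I * (Real.exp (-(π * y / 2)) : ℂ) := by
  rw [tp_coe]
  rw [show 2 * (π:ℂ) * Complex.I * ((1 + (y:ℂ) * Complex.I) / 4)
    = π / 2 * Complex.I + ((-(π * y / 2) : ℝ) : ℂ) + (Complex.I ^ 2 + 1) * (π * y / 2) by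
      push_cast; ring]
  rw [Complex.I_sq, Complex.exp_add, Complex.exp_add, Complex.exp_pi_div_two_mul_I]
  push_cast
  norm_num

theorem exp_tm {y : ℝ} (hy : 0 < y) : Complex.exp (2 * π * Complex.I * (tm y hy))
    = -Complex.I * (Real.exp (-(π * y / 2)) : ℂ) := by
  rw [tm_coe]
  rw [show 2 * (π:ℂ) * Complex.I * ((-1 + (y:ℂ) * Complex.I) / 4)
    = -(π / 2 * Complex.I) + ((-(π * y / 2) : ℝ) : ℂ) + (Complex.I ^ 2 + 1) * (π * y / 2) by
      push_cast; ring]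
  rw [Complex.I_sq, Complex.exp_add, Complex.exp_add, Complex.exp_neg,
    Complex.exp_pi_div_two_mul_I]
  push_cast
  norm_num

/-- the odd pairs -/
def od (p : ℕ × ℕ) : ℕ+ × ℕ+ := (⟨2 * p.1 + 1, by omega⟩, ⟨2 * p.2 + 1, by omega⟩)

theorem od_inj : Function.Injective od := by
  rintro ⟨a, b⟩ ⟨c, d⟩ h
  have h1 : 2 * a + 1 = 2 * c + 1 := congrArg (fun c : ℕ+ × ℕ+ => (c.1 : ℕ)) h
  have h2 : 2 * b + 1 = 2 * d + 1 := congrArg (fun c : ℕ+ × ℕ+ => (c.2 : ℕ)) h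
  have h3 : a = c := by omega
  have h4 : b = d := by omega
  rw [h3, h4]

theorem E4_diff_series {y : ℝ} (hy : 0 < y) :
    ModularForm.E₄ (tp y hy) - ModularForm.E₄ (tm y hy) = 120 * Complex.I * (MM7.Q4 y : ℂ) := by
  have hs1 := summable_prod_mul_pow 3 (UpperHalfPlane.norm_exp_two_pi_I_lt_one (tp y hy))
  have hs2 := summable_prod_mul_pow 3 (UpperHalfPlane.norm_exp_two_pi_I_lt_one (tm y hy))
  have hsub := hs1.hasSum.sub hs2.hasSum
  rw [E4_double, E4_double]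
  rw [show ∀ A B : ℂ, 1 + 240 * A - (1 + 240 * B) = 240 * (A - B) by intro A B; ring]
  rw [← hsub.tsum_eq]
  set x : ℂ := (Real.exp (-(π * y / 2)) : ℂ) with hx
  have hF : ∀ c : ℕ+ × ℕ+, (((c.2 : ℕ) : ℂ) ^ 3 *
        Complex.exp (2 * π * Complex.I * (tp y hy)) ^ ((c.1 : ℕ) * (c.2 : ℕ)) -
      ((c.2 : ℕ) : ℂ) ^ 3 * Complex.exp (2 * π * Complex.I * (tm y hy)) ^ ((c.1 : ℕ) * (c.2 : ℕ)))
      = ((c.2 : ℕ) : ℂ) ^ 3 * x ^ ((c.1 : ℕ) * (c.2 : ℕ)) *
        (Complex.I ^ ((c.1 : ℕ) * (c.2 : ℕ)) - (-Complex.I) ^ ((c.1 : ℕ) * (c.2 : ℕ))) := by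
    intro c
    rw [exp_tp, exp_tm, ← hx, mul_pow, mul_pow]
    ring
  rw [tsum_congr hF]
  rw [← od_inj.tsum_eq]
  · have hG : ∀ p : ℕ × ℕ, (((od p).2 : ℕ) : ℂ) ^ 3 * x ^ (((od p).1 : ℕ) * ((od p).2 : ℕ)) *
        (Complex.I ^ (((od p).1 : ℕ) * ((od p).2 : ℕ)) -
          (-Complex.I) ^ (((od p).1 : ℕ) * ((od p).2 : ℕ)))
        = (2 * Complex.I) * (((-1:ℝ) ^ (p.1 + p.2) * (2 * (p.2:ℝ) + 1) ^ 3
          * Real.exp (-(π * (2 * (p.1:ℝ) + 1) * (2 * (p.2:ℝ) + 1) * y / 2)) : ℝ) : ℂ) := by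
      intro p
      have h1 : ((od p).1 : ℕ) = 2 * p.1 + 1 := rfl
      have h2 : ((od p).2 : ℕ) = 2 * p.2 + 1 := rfl
      rw [h1, h2, I_pow_sub_odd]
      have h3 : x ^ ((2 * p.1 + 1) * (2 * p.2 + 1)) =
          (Real.exp (-(π * (2 * (p.1:ℝ) + 1) * (2 * (p.2:ℝ) + 1) * y / 2)) : ℂ) := by
        rw [hx, ← Complex.ofReal_pow, ← Real.exp_nat_mul]
        congr 2
        push_cast
        ring
      rw [h3]
      push_cast
      ring
    rw [tsum_congr hG, tsum_mul_left, ← Complex.ofReal_tsum, MM7.Q4]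
    push_cast
    ring
  · intro c hc
    by_contra hcon
    apply hc
    have heven : Even ((c.1 : ℕ) * (c.2 : ℕ)) := by
      by_contra hne
      rw [Nat.not_even_iff_odd, Nat.odd_mul] at hne
      obtain ⟨⟨i, hi⟩, ⟨j, hj⟩⟩ := hne
      apply hcon
      refine ⟨(i, j), Prod.ext (PNat.eq ?_) (PNat.eq ?_)⟩
      · exact hi.symm
      · exact hj.symm
    simp only
    rw [I_pow_sub_even heven, mul_zero]

theorem psi_Q4 {y : ℝ} (hy : 0 < y) : MM7.Psi y = MM7.Q4 y := by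
  have h := (E4_diff_theta hy).symm.trans (E4_diff_series hy)
  have h120 : (120 * Complex.I : ℂ) ≠ 0 := by simp
  exact_mod_cast mul_left_cancel₀ h120 h

end

end MM7T
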