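import Mathlib
import Pool.Agent.MM7T.Q4

/-!
# MM7T.Row: rows of `Q4` (helper34)
-/

open Real

namespace MM7T

noncomputable section

/-- `Σ (2j+1)³ t^j` in closed form -/
theorem hasSum_cube {t : ℝ} (ht : |t| < 1) :
    HasSum (fun j : ℕ => (2 * (j:ℝ) + 1) ^ 3 * t ^ j)
      ((1 + 23 * t + 23 * t ^ 2 + t ^ 3) / (1 - t) ^ 4) := by
  have hn : ‖t‖ < 1 := by rwa [Real.norm_eq_abs]
  have h3 := (hasSum_choose_mul_geometric_of_norm_lt_one 3 hn).mul_left 48
  have h2 := (hasSum_choose_mul_geometric_of_norm_lt_one 2 hn).mul_left 72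
  have h1 := (hasSum_choose_mul_geometric_of_norm_lt_one 1 hn).mul_left 26
  have h0 := (hasSum_choose_mul_geometric_of_norm_lt_one 0 hn).mul_left 1
  have h := ((h3.sub h2).add h1).sub h0
  have hne : (1 - t) ≠ 0 := by
    have := (abs_lt.mp ht).2
    intro h; linarith
  convert! h using 1
  · funext j
    have c3 : (((j + 3).choose 3 : ℕ) : ℝ) = ((j:ℝ) + 1) * (j + 2) * (j + 3) / 6 := by
      have := Nat.add_choose_mul_factorial_mul_factorial j 3
      have h' : (((j + 3).choose 3 : ℕ) : ℝ) * (j.factorial : ℝ) * 6 = ((j + 3).factorial : ℝ) := by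
        exact_mod_cast this
      rw [Nat.factorial_succ, Nat.factorial_succ, Nat.factorial_succ] at h'
      push_cast at h'
      have hf : (j.factorial : ℝ) ≠ 0 := by exact_mod_cast j.factorial_ne_zero
      have : (((j + 3).choose 3 : ℕ) : ℝ) * 6 = ((j:ℝ) + 1) * (j + 2) * (j + 3) := by
        apply mul_right_cancel₀ hf
        linear_combination h'
      linarith
    have c2 : (((j + 2).choose 2 : ℕ) : ℝ) = ((j:ℝ) + 1) * (j + 2) / 2 := by
      have := Nat.add_choose_mul_factorial_mul_factorial j 2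
      have h' : (((j + 2).choose 2 : ℕ) : ℝ) * (j.factorial : ℝ) * 2 = ((j + 2).factorial : ℝ) := by
        exact_mod_cast this
      rw [Nat.factorial_succ, Nat.factorial_succ] at h'
      push_cast at h'
      have hf : (j.factorial : ℝ) ≠ 0 := by exact_mod_cast j.factorial_ne_zero
      have : (((j + 2).choose 2 : ℕ) : ℝ) * 2 = ((j:ℝ) + 1) * (j + 2) := by
        apply mul_right_cancel₀ hf
        linear_combination h'
      linarith
    have c1 : (((j + 1).choose 1 : ℕ) : ℝ) = (j:ℝ) + 1 := by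
      rw [Nat.choose_one_right]; push_cast; ring
    have c0 : (((j + 0).choose 0 : ℕ) : ℝ) = 1 := by simp
    rw [c3, c2, c1, c0]
    ring
  · field_simp
    ring

/-- the row `Σ (-1)^j (2j+1)³ e^{-(2j+1)u}` -/
theorem hasSum_row {u : ℝ} (hu : 0 < u) :
    HasSum (fun j : ℕ => (-1:ℝ) ^ j * (2 * (j:ℝ) + 1) ^ 3 * Real.exp (-((2 * (j:ℝ) + 1) * u)))
      ((Real.tanh u / Real.cosh u * (1 - 6 / Real.cosh u ^ 2)) / 2) := by
  set r := Real.exp (-u) with hr
  have hr0 : 0 < r := Real.exp_pos _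
  have hr1 : r < 1 := by
    rw [hr]; exact Real.exp_lt_one_iff.mpr (by linarith)
  have ht : |(-r ^ 2)| < 1 := by
    rw [abs_neg, abs_of_pos (by positivity)]
    nlinarith
  have h := (hasSum_cube ht).mul_left r
  convert! h using 1
  · funext j
    have : Real.exp (-((2 * (j:ℝ) + 1) * u)) = r * (r ^ 2) ^ j := by
      rw [hr, ← pow_mul, ← Real.exp_nat_mul, ← Real.exp_add]
      congr 1
      push_cast
      ring
    rw [this, neg_pow]
    ring
  · have he : Real.exp u = r⁻¹ := by rw [hr, Real.exp_neg, inv_inv]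
    have hc : Real.cosh u = (1 + r ^ 2) / (2 * r) := by
      rw [Real.cosh_eq, he, ← hr]; field_simp
    have hs : Real.sinh u = (1 - r ^ 2) / (2 * r) := by
      rw [Real.sinh_eq, he, ← hr]; field_simp
    rw [Real.tanh_eq_sinh_div_cosh, hc, hs]
    have h1 : (1 + r ^ 2) ≠ 0 := by positivity
    have h2 : (1 - -r ^ 2) ≠ 0 := by rw [sub_neg_eq_add]; exact h1
    field_simp
    ring

theorem row_Q4 {y : ℝ} (hy : 0 < y) :
    HasSum (fun k : ℕ => 2 * ((-1) ^ k * (Real.tanh (π * (2 * (k:ℝ) + 1) * y / 2)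
      / Real.cosh (π * (2 * (k:ℝ) + 1) * y / 2)
      * (1 - 6 / Real.cosh (π * (2 * (k:ℝ) + 1) * y / 2) ^ 2)))) (MM7.Q4 y) := by
  have hS := MM7.Q4_summable hy
  have hu : ∀ k : ℕ, 0 < π * (2 * (k:ℝ) + 1) * y / 2 := fun k => by positivity
  have h := (hS.hasSum.prod_fiberwise (fun i => by
    have h1 := (hasSum_row (hu i)).mul_left ((-1:ℝ) ^ i)
    refine h1.congr_fun ?_
    intro j
    simp only
    rw [pow_add]
    ring_nf)).mul_left 4
  rw [MM7.Q4]
  convert! h using 1
  funext k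
  ring

/-- the same as a `tsum` over the rows -/
theorem psi_row_tsum {y : ℝ} (hy : 0 < y) :
    MM7.Q4 y = 2 * ∑' k : ℕ, (-1) ^ k * (Real.tanh (π * (2 * (k:ℝ) + 1) * y / 2)
      / Real.cosh (π * (2 * (k:ℝ) + 1) * y / 2)
      * (1 - 6 / Real.cosh (π * (2 * (k:ℝ) + 1) * y / 2) ^ 2)) := by
  rw [← (row_Q4 hy).tsum_eq, tsum_mul_left]

end

end MM7T
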