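import Mathlib
import Pool.Agent.MM7T.Level

/-!
# MM7T.WProd: product formula for `ww`
-/

open Real

namespace MM7T

noncomputable section

private lemma w_summ_logadd {q : ℝ} (h0 : 0 < q) (h1 : q < 1) {e : ℕ → ℕ} (he : ∀ n, n ≤ e n) :
    Summable (fun n : ℕ => Real.log (1 + q ^ (e n))) := by
  refine Summable.of_nonneg_of_le (fun n => ?_) (fun n => ?_) (summable_geometric_of_lt_one h0.le h1)
  · apply Real.log_nonneg
    have : 0 < q ^ (e n) := by positivity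
    linarith
  · have h2 : 0 < q ^ (e n) := by positivity
    have h3 := Real.log_le_sub_one_of_pos (show 0 < 1 + q ^ (e n) by linarith)
    have h4 : q ^ (e n) ≤ q ^ n := pow_le_pow_of_le_one h0.le h1.le (he n)
    linarith

private lemma w_summ_logsub {q : ℝ} (h0 : 0 < q) (h1 : q < 1) {e : ℕ → ℕ}
    (he : ∀ n, n + 1 ≤ e n) :
    Summable (fun n : ℕ => Real.log (1 - q ^ (e n))) := by
  have hq : 0 < 1 - q := by linarith
  refine Summable.of_norm_bounded
    ((summable_geometric_of_lt_one h0.le h1).mul_left (1 / (1 - q))) (fun n => ?_)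
  have h2 : 0 < q ^ (e n) := by positivity
  have h5 : q ^ (e n) ≤ q ^ (n + 1) := pow_le_pow_of_le_one h0.le h1.le (he n)
  have h6 : q ^ (n + 1) ≤ q := by
    calc q ^ (n + 1) ≤ q ^ 1 := pow_le_pow_of_le_one h0.le h1.le (by omega)
      _ = q := pow_one q
  have h7 : q ^ (n + 1) ≤ q ^ n := pow_le_pow_of_le_one h0.le h1.le (by omega)
  have h8 : 0 < 1 - q ^ (e n) := by linarith
  rw [Real.norm_of_nonpos (Real.log_nonpos h8.le (by linarith)), ← Real.log_inv]
  have h9 := Real.log_le_sub_one_of_pos (inv_pos.mpr h8)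
  have h10 : (1 - q ^ (e n))⁻¹ - 1 = q ^ (e n) / (1 - q ^ (e n)) := by
    field_simp
    ring
  rw [h10] at h9
  calc Real.log (1 - q ^ (e n))⁻¹ ≤ q ^ (e n) / (1 - q ^ (e n)) := h9
    _ ≤ q ^ n / (1 - q) := by
        apply div_le_div₀ (by positivity) (by linarith) hq (by linarith)
    _ = 1 / (1 - q) * q ^ n := by ring

/-- The combination of the three logarithmic Euler products. -/
private lemma w_euler {q : ℝ} (h0 : 0 < q) (h1 : q < 1) :
    ∑' n : ℕ, Real.log (1 - q ^ (n + 1)) + ∑' n : ℕ, Real.log (1 - (q ^ 4) ^ (n + 1))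
      - 2 * ∑' n : ℕ, Real.log (1 - (q ^ 2) ^ (n + 1)) =
    -∑' n : ℕ, Real.log (1 + q ^ (2 * n + 1)) := by
  have h0' : 0 < q ^ 2 := by positivity
  have h1' : q ^ 2 < 1 := pow_lt_one₀ h0.le h1 (by norm_num)
  have sS : Summable (fun n : ℕ => Real.log (1 - q ^ (n + 1))) :=
    w_summ_logsub h0 h1 (e := fun n => n + 1) (fun n => le_rfl)
  have sS2 : Summable (fun n : ℕ => Real.log (1 - (q ^ 2) ^ (n + 1))) :=
    w_summ_logsub h0' h1' (e := fun n => n + 1) (fun n => le_rfl)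
  have sO : Summable (fun n : ℕ => Real.log (1 - q ^ (2 * n + 1))) :=
    w_summ_logsub h0 h1 (e := fun n => 2 * n + 1) (fun n => by omega)
  have sE : Summable (fun n : ℕ => Real.log (1 - q ^ (2 * n + 1 + 1))) :=
    w_summ_logsub h0 h1 (e := fun n => 2 * n + 1 + 1) (fun n => by omega)
  have sA : Summable (fun n : ℕ => Real.log (1 + q ^ (n + 1))) :=
    w_summ_logadd h0 h1 (e := fun n => n + 1) (fun n => by omega)
  have sA1 : Summable (fun n : ℕ => Real.log (1 + q ^ (2 * n + 1))) :=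
    w_summ_logadd h0 h1 (e := fun n => 2 * n + 1) (fun n => by omega)
  have sA2 : Summable (fun n : ℕ => Real.log (1 + q ^ (2 * n + 1 + 1))) :=
    w_summ_logadd h0 h1 (e := fun n => 2 * n + 1 + 1) (fun n => by omega)
  have hS := tsum_even_add_odd (f := fun n : ℕ => Real.log (1 - q ^ (n + 1))) sO sE
  have hA := tsum_even_add_odd (f := fun n : ℕ => Real.log (1 + q ^ (n + 1))) sA1 sA2
  have hE2 : ∑' n : ℕ, Real.log (1 - q ^ (2 * n + 1 + 1)) =
      ∑' n : ℕ, Real.log (1 - (q ^ 2) ^ (n + 1)) := by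
    refine tsum_congr fun n => ?_
    rw [← pow_mul]
    congr 3
  have hE : ∑' n : ℕ, Real.log (1 - q ^ (2 * n + 1 + 1)) =
      ∑' n : ℕ, Real.log (1 - q ^ (n + 1)) + ∑' n : ℕ, Real.log (1 + q ^ (n + 1)) := by
    rw [← sS.tsum_add sA]
    refine tsum_congr fun n => ?_
    have h2 : q ^ (n + 1) < 1 := pow_lt_one₀ h0.le h1 (by omega)
    have h3 : 0 < q ^ (n + 1) := by positivity
    rw [← Real.log_mul (by linarith) (by linarith)]
    congr 1
    rw [show 2 * n + 1 + 1 = (n + 1) * 2 by ring, pow_mul]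
    ring
  have hE4 : ∑' n : ℕ, Real.log (1 - (q ^ 4) ^ (n + 1)) =
      ∑' n : ℕ, Real.log (1 - (q ^ 2) ^ (n + 1))
        + ∑' n : ℕ, Real.log (1 + q ^ (2 * n + 1 + 1)) := by
    rw [← sS2.tsum_add sA2]
    refine tsum_congr fun n => ?_
    have h2 : (q ^ 2) ^ (n + 1) < 1 := pow_lt_one₀ h0'.le h1' (by omega)
    have h3 : 0 < q ^ (2 * n + 1 + 1) := by positivity
    rw [← Real.log_mul (by linarith) (by linarith)]
    congr 1
    rw [← pow_mul, ← pow_mul, show 2 * n + 1 + 1 = 2 * (n + 1) by ring,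
      show 4 * (n + 1) = 2 * (n + 1) + 2 * (n + 1) by ring, pow_add]
    ring
  linarith

private lemma w_disc {s : ℝ} (hs : 0 < s) :
    ModularForm.discriminant ⟨(s : ℂ) * Complex.I, by simpa using hs⟩ =
      ((Real.exp (-(2 * π * s) + 24 *
        ∑' n : ℕ, Real.log (1 - Real.exp (-(2 * π * s)) ^ (n + 1))) : ℝ) : ℂ) := by
  have hπ := Real.pi_pos
  set q : ℝ := Real.exp (-(2 * π * s)) with hq
  have h0 : 0 < q := Real.exp_pos _
  have h1 : q < 1 := by
    rw [hq, Real.exp_lt_one_iff]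
    have : 0 < 2 * π * s := by positivity
    linarith
  have hqp : Function.Periodic.qParam 1 ((s : ℂ) * Complex.I) = ((q : ℝ) : ℂ) := by
    rw [Function.Periodic.qParam, hq, Complex.ofReal_exp]
    congr 1
    push_cast
    rw [div_one]
    linear_combination (2 * π * s : ℂ) * Complex.I_mul_I
  have hpos : ∀ n : ℕ, 0 < 1 - q ^ (n + 1) := fun n => by
    have : q ^ (n + 1) < 1 := pow_lt_one₀ h0.le h1 (by omega)
    linarith
  have hlog : ∀ n : ℕ, Real.log ((1 - q ^ (n + 1)) ^ 24) = 24 * Real.log (1 - q ^ (n + 1)) := by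
    intro n
    rw [Real.log_pow]
    norm_num
  have sS : Summable (fun n : ℕ => Real.log (1 - q ^ (n + 1))) :=
    w_summ_logsub h0 h1 (e := fun n => n + 1) (fun n => le_rfl)
  have sS' : Summable (fun n : ℕ => Real.log ((1 - q ^ (n + 1)) ^ 24)) :=
    (sS.mul_left 24).congr fun n => (hlog n).symm
  have hp := Real.rexp_tsum_eq_tprod (f := fun n : ℕ => (1 - q ^ (n + 1)) ^ 24)
    (fun n => pow_pos (hpos n) 24) sS'
  rw [ModularForm.discriminant_eq_q_prod]
  have hc : ∏' n : ℕ, (1 - ModularForm.eta_q n ((s : ℂ) * Complex.I)) ^ 24 =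
      ((∏' n : ℕ, (1 - q ^ (n + 1)) ^ 24 : ℝ) : ℂ) := by
    have hm : Multipliable (fun n : ℕ => (1 - q ^ (n + 1)) ^ 24) :=
      Real.multipliable_of_summable_log (fun n => pow_pos (hpos n) 24) sS'
    have hmap := hm.map_tprod Complex.ofRealHom Complex.continuous_ofReal
    change ((∏' n : ℕ, (1 - q ^ (n + 1)) ^ 24 : ℝ) : ℂ) = _ at hmap
    rw [hmap]
    refine tprod_congr fun n => ?_
    rw [ModularForm.eta_q, hqp]
    simp
  change Function.Periodic.qParam 1 ((s : ℂ) * Complex.I) *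
    ∏' n : ℕ, (1 - ModularForm.eta_q n ((s : ℂ) * Complex.I)) ^ 24 = _
  rw [hc, hqp, ← hp, tsum_congr hlog, tsum_mul_left, ← Complex.ofReal_mul, Real.exp_add, ← hq]

private lemma w_pos {y : ℝ} (hy : 0 < y) : 0 < ((y : ℂ) * Complex.I).im := by simpa using hy

private lemma w_ratio {y : ℝ} (hy : 0 < y) :
    (MM7.ww y : ℂ) * ModularForm.discriminant ⟨(y : ℂ) * Complex.I, w_pos hy⟩ ^ 2 =
      4096 * ModularForm.discriminant ⟨((y / 2 : ℝ) : ℂ) * Complex.I, w_pos (half_pos hy)⟩ *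
        ModularForm.discriminant ⟨((2 * y : ℝ) : ℂ) * Complex.I, w_pos (by positivity)⟩ := by
  have hτ := w_pos hy
  have hτ2 : 0 < (((y / 2 : ℝ) : ℂ) * Complex.I).im := w_pos (half_pos hy)
  have e2 : (2 : ℂ) * ((y : ℂ) * Complex.I) = ((2 * y : ℝ) : ℂ) * Complex.I := by push_cast; ring
  have e1 : (2 : ℂ) * (((y / 2 : ℝ) : ℂ) * Complex.I) = (y : ℂ) * Complex.I := by push_cast; ring
  have D1 := Delta_eq ⟨(y : ℂ) * Complex.I, hτ⟩
  have Dh := Delta_eq ⟨((y / 2 : ℝ) : ℂ) * Complex.I, hτ2⟩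
  have D2 := Delta_eq ⟨((2 * y : ℝ) : ℂ) * Complex.I, w_pos (by positivity)⟩
  simp only at D1 Dh D2
  -- values at `2τ`
  have A1 := landen_add hτ
  have A2 := landen_sub hτ
  have A3 := landen_mul hτ
  rw [e2] at A1 A2 A3
  -- values at `τ/2`
  have B1 := landen_add hτ2
  have B2 := landen_sub hτ2
  have B3 := landen_mul hτ2
  have B4 := landen_two hτ2
  rw [e1] at B1 B2 B3 B4
  have J := jacobi hτ
  have hc0 : T3 ((y : ℂ) * Complex.I) ≠ 0 := by
    intro h0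
    have hD := ModularForm.discriminant_ne_zero ⟨(y : ℂ) * Complex.I, hτ⟩
    apply hD
    have : 256 * ModularForm.discriminant ⟨(y : ℂ) * Complex.I, hτ⟩ = 0 := by
      rw [D1, h0]
      ring
    simpa using this
  have hw : (MM7.ww y : ℂ) = 256 * T2 ((y : ℂ) * Complex.I) ^ 4 * T4 ((y : ℂ) * Complex.I) ^ 4 /
      T3 ((y : ℂ) * Complex.I) ^ 8 := by
    rw [T2_axis hy, T3_axis hy, T4_axis hy]
    unfold MM7.ww
    push_cast
    rfl
  change 256 * ModularForm.discriminant ⟨(y : ℂ) * Complex.I, hτ⟩ = (T2 ((y : ℂ) * Complex.I) *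
    T3 ((y : ℂ) * Complex.I) * T4 ((y : ℂ) * Complex.I)) ^ 8 at D1
  change _ = (T2 (((y / 2 : ℝ) : ℂ) * Complex.I) * T3 (((y / 2 : ℝ) : ℂ) * Complex.I) *
    T4 (((y / 2 : ℝ) : ℂ) * Complex.I)) ^ 8 at Dh
  change _ = (T2 (((2 * y : ℝ) : ℂ) * Complex.I) * T3 (((2 * y : ℝ) : ℂ) * Complex.I) *
    T4 (((2 * y : ℝ) : ℂ) * Complex.I)) ^ 8 at D2
  rw [hw]
  set a := T2 ((y : ℂ) * Complex.I)
  set b := T4 ((y : ℂ) * Complex.I)
  set c := T3 ((y : ℂ) * Complex.I)
  have R2 : (T2 (((2 * y : ℝ) : ℂ) * Complex.I) * T3 (((2 * y : ℝ) : ℂ) * Complex.I) *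
    T4 (((2 * y : ℝ) : ℂ) * Complex.I)) ^ 8 = (a ^ 4 * b * c / 4) ^ 4 := by
    have x1 : (T2 (((2 * y : ℝ) : ℂ) * Complex.I) * T3 (((2 * y : ℝ) : ℂ) * Complex.I) *
      T4 (((2 * y : ℝ) : ℂ) * Complex.I)) ^ 2 = a ^ 4 * b * c / 4 := by
      rw [mul_pow, mul_pow, ← A3]
      have y1 : T2 (((2 * y : ℝ) : ℂ) * Complex.I) ^ 2 = (c ^ 2 - b ^ 2) / 2 := by
        rw [A2]; ring
      have y2 : T3 (((2 * y : ℝ) : ℂ) * Complex.I) ^ 2 = (c ^ 2 + b ^ 2) / 2 := by
        rw [A1]; ring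
      rw [y1, y2]
      linear_combination (b * c / 4) * J
    calc _ = ((T2 (((2 * y : ℝ) : ℂ) * Complex.I) * T3 (((2 * y : ℝ) : ℂ) * Complex.I) *
      T4 (((2 * y : ℝ) : ℂ) * Complex.I)) ^ 2) ^ 4 := by ring
      _ = _ := by rw [x1]
  have Rh : (T2 (((y / 2 : ℝ) : ℂ) * Complex.I) * T3 (((y / 2 : ℝ) : ℂ) * Complex.I) *
    T4 (((y / 2 : ℝ) : ℂ) * Complex.I)) ^ 8 = (2 * a * c) ^ 4 * b ^ 16 := by
    calc _ = (T2 (((y / 2 : ℝ) : ℂ) * Complex.I) ^ 2) ^ 4 *
        (T3 (((y / 2 : ℝ) : ℂ) * Complex.I) * T4 (((y / 2 : ℝ) : ℂ) * Complex.I)) ^ 8 := by ring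
      _ = _ := by rw [B4, B3]; ring
  rw [R2] at D2
  rw [Rh] at Dh
  have hc8 : c ^ 8 ≠ 0 := pow_ne_zero 8 hc0
  rw [div_mul_eq_mul_div, div_eq_iff hc8]
  set X := ModularForm.discriminant ⟨(y : ℂ) * Complex.I, hτ⟩
  set Y := ModularForm.discriminant ⟨((y / 2 : ℝ) : ℂ) * Complex.I, hτ2⟩
  set Z := ModularForm.discriminant ⟨((2 * y : ℝ) : ℂ) * Complex.I, w_pos (by positivity)⟩
  have hX : X = (a * c * b) ^ 8 / 256 := by rw [← D1]; ring
  have hY : Y = (2 * a * c) ^ 4 * b ^ 16 / 256 := by rw [← Dh]; ring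
  have hZ : Z = (a ^ 4 * b * c / 4) ^ 4 / 256 := by rw [← D2]; ring
  rw [hX, hY, hZ]
  ring

theorem log_ww {y : ℝ} (hy : 0 < y) : Real.log (MM7.ww y) =
    12 * Real.log 2 - π * y - 24 * ∑' n : ℕ, Real.log (1 + Real.exp (-(π * (2 * (n:ℝ) + 1) * y))) := by
  have hπ := Real.pi_pos
  have h2y : 0 < 2 * y := by positivity
  have hR := w_ratio hy
  rw [w_disc hy, w_disc (half_pos hy), w_disc h2y] at hR
  norm_cast at hR
  set q : ℝ := Real.exp (-(π * y)) with hq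
  have h0 : 0 < q := Real.exp_pos _
  have h1 : q < 1 := by
    rw [hq, Real.exp_lt_one_iff]
    have : 0 < π * y := by positivity
    linarith
  have q1 : Real.exp (-(2 * π * (y / 2))) = q := by rw [hq]; congr 1; ring
  have q2 : Real.exp (-(2 * π * y)) = q ^ 2 := by
    rw [hq, ← Real.exp_nat_mul]; congr 1; push_cast; ring
  have q4 : Real.exp (-(2 * π * (2 * y))) = q ^ 4 := by
    rw [hq, ← Real.exp_nat_mul]; congr 1; push_cast; ring
  rw [q1, q2, q4] at hR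
  have hE := w_euler h0 h1
  set S1 := ∑' n : ℕ, Real.log (1 - q ^ (n + 1))
  set S2 := ∑' n : ℕ, Real.log (1 - (q ^ 2) ^ (n + 1))
  set S4 := ∑' n : ℕ, Real.log (1 - (q ^ 4) ^ (n + 1))
  have hl : (∑' n : ℕ, Real.log (1 + Real.exp (-(π * (2 * (n:ℝ) + 1) * y)))) =
      ∑' n : ℕ, Real.log (1 + q ^ (2 * n + 1)) := by
    refine tsum_congr fun n => ?_
    rw [hq, ← Real.exp_nat_mul]
    congr 3
    push_cast
    ring
  rw [hl]
  have hww : MM7.ww y = 4096 * Real.exp (-(2 * π * (y / 2)) + 24 * S1) *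
      Real.exp (-(2 * π * (2 * y)) + 24 * S4) / Real.exp (-(2 * π * y) + 24 * S2) ^ 2 := by
    rw [eq_div_iff (by positivity)]
    exact hR
  rw [hww, Real.log_div (by positivity) (by positivity), Real.log_mul (by positivity) (by positivity),
    Real.log_mul (by norm_num) (by positivity), Real.log_exp, Real.log_exp, Real.log_pow,
    Real.log_exp, show (4096 : ℝ) = 2 ^ 12 by norm_num, Real.log_pow]
  push_cast
  linarith

end

end MM7T
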