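import Mathlib
import Pool.Agent.MM7T.WProd
import Pool.Agent.MM7T.EserEq
import Pool.Agent.MM7T.PsiQ
import Pool.Agent.MM7T.Row
import Pool.Agent.MM7T.GserEq

/-!
# MM7T.Main: lattice sums by rows = theta functions (Part T)
-/

open Real

namespace MM7

theorem Eser_eq {y : ℝ} (hy : 0 < y) : Eser y = -(π / 12) * Real.log (ww y) := by
  rw [MM7T.eser_prod hy, MM7T.log_ww hy]; ring

theorem Gser_im {y : ℝ} (hy : 0 < y) : (Gser y).im = π ^ 4 / 96 * Psi y := by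
  rw [MM7T.gser_im_Q4 hy, MM7T.psi_Q4 hy]

theorem Psi_row_hasSum {y : ℝ} (hy : 0 < y) :
    HasSum (fun k : ℕ => 2 * ((-1) ^ k * (Real.tanh (π * (2 * (k:ℝ) + 1) * y / 2)
      / Real.cosh (π * (2 * (k:ℝ) + 1) * y / 2)
      * (1 - 6 / Real.cosh (π * (2 * (k:ℝ) + 1) * y / 2) ^ 2)))) (Psi y) := by
  rw [MM7T.psi_Q4 hy]; exact MM7T.row_Q4 hy

theorem Psi_row {y : ℝ} (hy : 0 < y) :
    Psi y = 2 * ∑' k : ℕ, (-1) ^ k * (Real.tanh (π * (2 * (k:ℝ) + 1) * y / 2)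
      / Real.cosh (π * (2 * (k:ℝ) + 1) * y / 2)
      * (1 - 6 / Real.cosh (π * (2 * (k:ℝ) + 1) * y / 2) ^ 2)) := by
  rw [← tsum_mul_left]; exact (Psi_row_hasSum hy).tsum_eq.symm

end MM7
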