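import Pool.Agent.MM7T.Q4

/-!
# MM7T: one row of `Gser`

`Σ_n χ(n) (m i y + n)⁻⁴ = (π⁴/96) 2 i Σ_{j≥0} (-1)^j (2j+1)³ exp(-π m (2j+1) y / 2)`, `m > 0`.
-/

open Real MM7

namespace MM7T

noncomputable section

theorem chi_eq (n : ℤ) : chi n = if n % 2 = 0 then 0 else if n % 4 = 1 then 1 else -1 := by
  unfold chi
  rw [ZMod.χ₄_int_eq_if_mod_four]
  split_ifs <;> simp

theorem chi_abs_le (n : ℤ) : |chi n| ≤ 1 := by
  rw [chi_eq]; split_ifs <;> simp

theorem chi_neg (n : ℤ) : chi (-n) = -chi n := by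
  rw [chi_eq, chi_eq]
  split_ifs <;> first | omega | simp

/-- sum over `ℤ` against `χ₄` by residues mod 4 -/
theorem hasSum_chi {f : ℤ → ℂ} {A B : ℂ} (hA : HasSum (fun k : ℤ => f (4 * k + 1)) A)
    (hB : HasSum (fun k : ℤ => f (4 * k - 1)) B) :
    HasSum (fun n : ℤ => (chi n : ℂ) * f n) (A - B) := by
  have i1 : Function.Injective (fun k : ℤ => 4 * k + 1) := fun a b h => by
    have h' : 4 * a + 1 = 4 * b + 1 := h
    omega
  have i2 : Function.Injective (fun k : ℤ => 4 * k - 1) := fun a b h => by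
    have h' : 4 * a - 1 = 4 * b - 1 := h
    omega
  have h1 : HasSum (fun n : ℤ => if n % 4 = 1 then f n else 0) A := by
    refine (i1.hasSum_iff ?_).mp ?_
    · intro x hx
      rw [if_neg]
      intro h
      exact hx ⟨x / 4, by show 4 * (x / 4) + 1 = x; omega⟩
    · have : (fun n : ℤ => if n % 4 = 1 then f n else 0) ∘ (fun k : ℤ => 4 * k + 1)
          = fun k : ℤ => f (4 * k + 1) := by
        funext k
        simp only [Function.comp]
        rw [if_pos (by omega)]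
      rw [this]; exact hA
  have h2 : HasSum (fun n : ℤ => if n % 4 = 3 then f n else 0) B := by
    refine (i2.hasSum_iff ?_).mp ?_
    · intro x hx
      rw [if_neg]
      intro h
      exact hx ⟨(x + 1) / 4, by show 4 * ((x + 1) / 4) - 1 = x; omega⟩
    · have : (fun n : ℤ => if n % 4 = 3 then f n else 0) ∘ (fun k : ℤ => 4 * k - 1)
          = fun k : ℤ => f (4 * k - 1) := by
        funext k
        simp only [Function.comp]
        rw [if_pos (by omega)]
      rw [this]; exact hB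
  have h3 := h1.sub h2
  have h4 : (fun n : ℤ => (chi n : ℂ) * f n) =
      fun n : ℤ => (if n % 4 = 1 then f n else 0) - (if n % 4 = 3 then f n else 0) := by
    funext n
    rw [chi_eq]
    rcases (show n % 4 = 0 ∨ n % 4 = 1 ∨ n % 4 = 2 ∨ n % 4 = 3 by omega) with h | h | h | h
    · rw [if_pos (by omega), if_neg (by omega), if_neg (by omega)]; simp
    · rw [if_neg (by omega), if_pos h, if_pos h, if_neg (by omega)]; simp
    · rw [if_pos (by omega), if_neg (by omega), if_neg (by omega)]; simp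
    · rw [if_neg (by omega), if_neg (by omega), if_neg (by omega), if_pos h]; simp
  rw [h4]; exact h3

/-- the two values of `i ^ n - (-i) ^ n` -/
theorem I_pow_odd (j : ℕ) :
    Complex.I ^ (2 * j + 1) - (-Complex.I) ^ (2 * j + 1) = 2 * Complex.I * (-1) ^ j := by
  rw [pow_succ, pow_succ, pow_mul, pow_mul, neg_sq, Complex.I_sq]
  ring

theorem I_pow_even (j : ℕ) :
    Complex.I ^ (2 * j) - (-Complex.I) ^ (2 * j) = 0 := by
  rw [pow_mul, pow_mul, neg_sq, Complex.I_sq]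
  ring

/-- Lipschitz formula at `(z ± 1)/4` -/
theorem lip_aux {t : ℝ} (ht : 0 < t) (s : ℤ) :
    HasSum (fun k : ℤ => 1 / (((t:ℂ) * Complex.I + ((4 * k + s : ℤ) : ℂ)) ^ 4))
      ((π:ℂ) ^ 4 / 96 * ∑' n : ℕ, (n:ℂ) ^ 3 *
        Complex.exp (2 * π * Complex.I * (((t:ℂ) * Complex.I + s) / 4)) ^ n) := by
  have him : 0 < ((((t:ℂ) * Complex.I + s) / 4)).im := by
    have : (((t:ℂ) * Complex.I + s) / 4).im = t / 4 := by
      simp
    rw [this]; positivity
  have h := EisensteinSeries.qExpansion_identity (k := 3) (by norm_num)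
    (⟨((t:ℂ) * Complex.I + s) / 4, him⟩ : UpperHalfPlane)
  have hs : Summable (fun k : ℤ => 1 / (((t:ℂ) * Complex.I + ((4 * k + s : ℤ) : ℂ)) ^ 4)) := by
    have h0 := EisensteinSeries.linear_right_summable ((t:ℂ) * Complex.I) 1 (k := 4) (by norm_num)
    have i1 : Function.Injective (fun k : ℤ => 4 * k + s) := fun a b h => by
      have h' : 4 * a + s = 4 * b + s := h
      omega
    have h1 := h0.comp_injective i1
    refine h1.congr (fun k => ?_)
    simp only [Function.comp, one_div]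
    norm_num
  have e1 : ∑' k : ℤ, 1 / (((t:ℂ) * Complex.I + ((4 * k + s : ℤ) : ℂ)) ^ 4)
      = (1 / 256) * ∑' n : ℤ, 1 / (((t:ℂ) * Complex.I + s) / 4 + n) ^ 4 := by
    rw [← tsum_mul_left]
    apply tsum_congr
    intro k
    have : ((t:ℂ) * Complex.I + ((4 * k + s : ℤ) : ℂ)) = 4 * (((t:ℂ) * Complex.I + s) / 4 + k) := by
      push_cast; ring
    rw [this, mul_pow]
    rw [one_div_mul_one_div]
    norm_num
  have h2 := hs.hasSum
  rw [e1] at h2
  have e2 : ∑' n : ℤ, 1 / (((t:ℂ) * Complex.I + s) / 4 + n) ^ 4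
      = ((-2 * π * Complex.I) ^ (3 + 1) / (Nat.factorial 3 : ℂ)) * ∑' n : ℕ, (n:ℂ) ^ 3 *
        Complex.exp (2 * π * Complex.I * (((t:ℂ) * Complex.I + s) / 4)) ^ n := h
  rw [e2] at h2
  have e3 : (1 / 256 : ℂ) * (((-2 * π * Complex.I) ^ (3 + 1) / (Nat.factorial 3 : ℂ)) * ∑' n : ℕ, (n:ℂ) ^ 3 *
        Complex.exp (2 * π * Complex.I * (((t:ℂ) * Complex.I + s) / 4)) ^ n)
      = (π:ℂ) ^ 4 / 96 * ∑' n : ℕ, (n:ℂ) ^ 3 *
        Complex.exp (2 * π * Complex.I * (((t:ℂ) * Complex.I + s) / 4)) ^ n := by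
    have : (-2 * π * Complex.I) ^ (3 + 1) = 16 * (π:ℂ) ^ 4 := by
      have hI : Complex.I ^ 4 = 1 := Complex.I_pow_four
      calc (-2 * π * Complex.I) ^ (3 + 1) = 16 * (π:ℂ) ^ 4 * Complex.I ^ 4 := by ring
        _ = _ := by rw [hI]; ring
    rw [this]
    have h6 : (Nat.factorial 3 : ℂ) = 6 := by norm_num [Nat.factorial]
    rw [h6]
    ring
  rw [e3] at h2
  exact h2

/-- one row of the Eisenstein series -/
theorem row_eq {t : ℝ} (ht : 0 < t) :
    HasSum (fun n : ℤ => (chi n : ℂ) * (1 / ((t:ℂ) * Complex.I + n) ^ 4))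
      ((π:ℂ) ^ 4 / 96 * (2 * Complex.I) * ∑' j : ℕ, (-1:ℂ) ^ j * (2 * (j:ℂ) + 1) ^ 3 *
        Complex.exp (-(π * (2 * (j:ℂ) + 1) * t / 2))) := by
  have hA := lip_aux ht 1
  have hB := lip_aux ht (-1)
  have hB' : HasSum (fun k : ℤ => 1 / (((t:ℂ) * Complex.I + ((4 * k - 1 : ℤ) : ℂ)) ^ 4))
      ((π:ℂ) ^ 4 / 96 * ∑' n : ℕ, (n:ℂ) ^ 3 *
        Complex.exp (2 * π * Complex.I * (((t:ℂ) * Complex.I + (-1 : ℤ)) / 4)) ^ n) := hB
  have h := hasSum_chi (f := fun n : ℤ => 1 / ((t:ℂ) * Complex.I + n) ^ 4) hA hB'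
  -- the exponentials
  set E : ℂ := Complex.exp (-(π * t / 2)) with hE
  have hq : ‖E‖ < 1 := by
    rw [hE, Complex.norm_exp]
    have : (-(π * t / 2) : ℂ).re = -(π * t / 2) := by
      have : (-(π * t / 2) : ℂ) = ((-(π * t / 2) : ℝ) : ℂ) := by push_cast; ring
      rw [this, Complex.ofReal_re]
    rw [this, ← Real.exp_zero]
    apply Real.exp_lt_exp.mpr
    have := Real.pi_pos
    have : 0 < π * t / 2 := by positivity
    linarith
  have ep : Complex.exp (2 * π * Complex.I * (((t:ℂ) * Complex.I + (1 : ℤ)) / 4)) = Complex.I * E := by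
    have : (2 * π * Complex.I * (((t:ℂ) * Complex.I + (1 : ℤ)) / 4)) =
        (π / 2 * Complex.I : ℂ) + (-(π * t / 2)) := by
      push_cast
      linear_combination (π * t / 2 : ℂ) * Complex.I_sq
    rw [this, Complex.exp_add, Complex.exp_pi_div_two_mul_I]
  have em : Complex.exp (2 * π * Complex.I * (((t:ℂ) * Complex.I + (-1 : ℤ)) / 4)) = -Complex.I * E := by
    have : (2 * π * Complex.I * (((t:ℂ) * Complex.I + (-1 : ℤ)) / 4)) =
        -(π / 2 * Complex.I : ℂ) + (-(π * t / 2)) := by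
      push_cast
      linear_combination (π * t / 2 : ℂ) * Complex.I_sq
    rw [this, Complex.exp_add, Complex.exp_neg, Complex.exp_pi_div_two_mul_I, Complex.inv_I]
  rw [ep, em] at h
  have hsum : Summable (fun n : ℕ => (n:ℂ) ^ 3 * E ^ n) :=
    summable_pow_mul_geometric_of_norm_lt_one 3 hq
  have hs1 : ∀ u : ℂ, ‖u‖ = 1 → Summable (fun n : ℕ => (n:ℂ) ^ 3 * (u * E) ^ n) := by
    intro u hu
    apply summable_pow_mul_geometric_of_norm_lt_one 3
    rw [norm_mul, hu, one_mul]; exact hq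
  have key : ∑' n : ℕ, (n:ℂ) ^ 3 * (Complex.I * E) ^ n - ∑' n : ℕ, (n:ℂ) ^ 3 * (-Complex.I * E) ^ n
      = 2 * Complex.I * ∑' j : ℕ, (-1:ℂ) ^ j * (2 * (j:ℂ) + 1) ^ 3 *
        Complex.exp (-(π * (2 * (j:ℂ) + 1) * t / 2)) := by
    rw [← (hs1 Complex.I Complex.norm_I).tsum_sub (hs1 (-Complex.I) (by rw [norm_neg, Complex.norm_I]))]
    have hd : Summable (fun n : ℕ => (n:ℂ) ^ 3 * (Complex.I * E) ^ n - (n:ℂ) ^ 3 * (-Complex.I * E) ^ n) :=
      (hs1 Complex.I Complex.norm_I).sub (hs1 (-Complex.I) (by rw [norm_neg, Complex.norm_I]))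
    have i0 : Function.Injective (fun j : ℕ => 2 * j) := fun a b h => by
      have h' : 2 * a = 2 * b := h
      omega
    have i1 : Function.Injective (fun j : ℕ => 2 * j + 1) := fun a b h => by
      have h' : 2 * a + 1 = 2 * b + 1 := h
      omega
    have hev := tsum_even_add_odd (f := fun n : ℕ => (n:ℂ) ^ 3 * (Complex.I * E) ^ n
      - (n:ℂ) ^ 3 * (-Complex.I * E) ^ n) (hd.comp_injective i0) (hd.comp_injective i1)
    rw [← hev]
    have z0 : ∀ j : ℕ, ((2 * j : ℕ) : ℂ) ^ 3 * (Complex.I * E) ^ (2 * j)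
        - ((2 * j : ℕ) : ℂ) ^ 3 * (-Complex.I * E) ^ (2 * j) = 0 := by
      intro j
      rw [mul_pow, mul_pow]
      linear_combination ((2 * j : ℕ) : ℂ) ^ 3 * E ^ (2 * j) * I_pow_even j
    have z1 : ∀ j : ℕ, ((2 * j + 1 : ℕ) : ℂ) ^ 3 * (Complex.I * E) ^ (2 * j + 1)
        - ((2 * j + 1 : ℕ) : ℂ) ^ 3 * (-Complex.I * E) ^ (2 * j + 1)
        = 2 * Complex.I * ((-1:ℂ) ^ j * (2 * (j:ℂ) + 1) ^ 3 *
        Complex.exp (-(π * (2 * (j:ℂ) + 1) * t / 2))) := by
      intro j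
      rw [mul_pow, mul_pow]
      have e5 : Complex.exp (-(π * (2 * (j:ℂ) + 1) * t / 2)) = E ^ (2 * j + 1) := by
        rw [hE, ← Complex.exp_nat_mul]
        congr 1
        push_cast; ring
      rw [e5]
      push_cast
      linear_combination (2 * (j:ℂ) + 1) ^ 3 * E ^ (2 * j + 1) * I_pow_odd j
    simp only [z0, z1, tsum_zero, zero_add, tsum_mul_left]
  have h5 : (π:ℂ) ^ 4 / 96 * (2 * Complex.I) * ∑' j : ℕ, (-1:ℂ) ^ j * (2 * (j:ℂ) + 1) ^ 3 *
        Complex.exp (-(π * (2 * (j:ℂ) + 1) * t / 2))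
      = (π:ℂ) ^ 4 / 96 * ∑' n : ℕ, (n:ℂ) ^ 3 * (Complex.I * E) ^ n -
        (π:ℂ) ^ 4 / 96 * ∑' n : ℕ, (n:ℂ) ^ 3 * (-Complex.I * E) ^ n := by
    rw [← mul_sub, key]; ring
  rw [h5]
  exact h

end

end MM7T
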